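import Pool.Agent.MP_ee8c61_ag.M3BQ.Br

/-! Curves of exponent zero over a point. -/

namespace Pool.Agent.MP_ee8c61_ag.M3BQ

open M3 M3RESID Set
open Pool.Agent.MP_96693b_ag.RS (Loc LocOf)
open Pool.Agent.MP_96693b_ag

variable {L k : Type} [Field L] [Algebra ℂ L] [Field k] [Algebra ℂ k]

theorem rat_der {y : k} (h : Rat y) (w : VF k) (hw : w y = 0) : w = 0 := by
  ext g
  have hg : g ∈ IntermediateField.adjoin ℂ {y} := h.2 ▸ trivial
  induction hg using IntermediateField.adjoin_induction with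
  | mem x hx => rw [mem_singleton_iff.1 hx, hw]; rfl
  | algebraMap r => simp
  | add a b _ _ h1 h2 => rw [map_add, h1, h2]; simp
  | inv a _ h1 => rw [Derivation.leibniz_inv, h1]; simp
  | mul a b _ _ h1 h2 => rw [Derivation.leibniz, h1, h2]; simp

/-- Fields on the residue field of a divisorial valuation over a point lift. -/
theorem lift_of (hQ : SQEX) (hE : SEXC) (hT : SRAT) (hA : SABV) (P : Pl L k) {C₀ C : Co L 2}
    {i : Fin 2} {R : Loc L} (h0 : C₀.At P.o i) (hR : Reg R C) (hd : Dm P.o.O R) (w : VF k) :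
    ∃ v, P.Rs v w := by
  obtain ⟨R', C', h1, -, -, h2⟩ := hA L (fun _ _ => True) P.o C₀ i
    ⟨fun _ _ _ _ => trivial, fun _ _ _ _ _ _ _ => trivial⟩ h0 R C hR trivial hd
  obtain ⟨Q, hq⟩ := hQ L R' C' 0 h1
  have h3 := (hE L R' C' P.o 0 Q h1 h2 hq).adp
  obtain ⟨C1, h4⟩ := Pl.exists_RsC h3 fun w hw => rat_der (hT L k P R' C' h1 h2) w (by
    have := hw 0
    rwa [show (qt C' 0).z (Fin.succAbove 0 0) = sg C' by simp [qt]] at this)
  exact h4.lift h3 w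

theorem p1_of {C : Co k 1} (h : Rat (C.z 0)) : M3BK.P1 (C.z 0) (C.th 0) :=
  ⟨h.1, h.2, by rw [C.th_z, if_pos rfl]⟩

theorem pol_of {d : Dv L} {v : VF L} {x : Loc L} {C : Co L 2} (hR : Reg x C)
    (h : ∃ u ∈ d.Ex, ∃ c, v - u ∈ C.F x.O c) : Pol d v x C := by
  obtain ⟨u, hu, c, hc⟩ := h
  refine ⟨u, hu, (c 0).natAbs + (c 1).natAbs, ?_⟩
  rw [← Co.G_univ] at hc ⊢
  refine Co.G_anti hR.z_mem _ (fun i => ?_) hc
  fin_cases i
  · show -(((c 0).natAbs + (c 1).natAbs : ℕ) : ℤ) ≤ c 0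
    omega
  · show -(((c 0).natAbs + (c 1).natAbs : ℕ) : ℤ) ≤ c 1
    omega

theorem cre (hQ : SQEX) (hE : SEXC) (hT : SRAT) (hA : SABV) (hX : SEXP) : M3BK.SCRE := by
  rintro L _ _ d v b ψ C x a m G h1 h2 h3 h4 ⟨C₀, i, h5⟩ h6
  replace h1 := gp_iff.1 h1
  replace h4 := dm_iff.1 h4
  have hl := lift_of hQ hE hT hA G.pl h5 h1.reg h4
  obtain ⟨e, he⟩ := Pl.exists_RsD (P := G.pl) h6 h5.vz hl
  obtain ⟨u, hu, h7, C1, μ, h8, h9, h10⟩ :=
    hX L _ G.pl C₀ i d v b e ψ x C a m h5 h6 h2 h1 (pol_of h1.reg h3) h4 he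
  refine ⟨C1.z 0, C1.th 0, μ, p1_of h8, fun e' he' => he'.uniq he hl ▸ h9, u, hu, h7,
    fun U hU => ?_⟩
  generalize G.pl.π ((v - u) ψ / ψ) = t at h10
  induction h10 using Algebra.adjoin_induction with
  | mem y hy =>
    rcases hy with rfl | rfl
    · exact Or.inr hU.ge
    · exact Or.inr (by rw [U.inv, hU]; rfl)
  | algebraMap r => exact cst_F U r
  | add _ _ _ _ g1 g2 => exact add_mem g1 g2
  | mul _ _ _ _ g1 g2 => exact F_mul0 g1 g2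

/-- From the type of the residues to the type of the curve. -/
theorem ty_of {d : Dv L} {v : VF L} {b : ℂ} {G : DV L} (h6 : Exp d G 0) (hn : Nz G)
    (hv : d.δ v = algebraMap ℂ L b) (hl : ∀ w, ∃ v, G.pl.Rs v w)
    (hu : ∀ w w', G.pl.Res d v w → G.pl.Res d v w' → w = w')
    (h : ∀ e w, G.pl.RsD d e → G.pl.Res d v w → Typ e w b) :
    ∃ (σ : G.kf) (θ : VF G.kf) (μ : ℂ), μ ≠ 0 ∧ M3BK.P1 σ θ ∧
      (∀ e, G.pl.RsD d e → e.δ θ = algebraMap ℂ _ μ) ∧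
      (μ ^ 2 = 1 ∨ ∀ w, G.pl.Res d v w → w = algebraMap ℂ G.kf (b / μ) • θ) := by
  obtain ⟨x, hx⟩ := hn
  obtain ⟨e, he⟩ := Pl.exists_RsD (P := G.pl) h6 hx hl
  obtain ⟨w, hw⟩ := Pl.exists_Res (P := G.pl) h6 (v := v) (hv ▸ cst_F G b)
  obtain ⟨C1, μ, h1, h2, h3, h4⟩ := h e w he hw
  exact ⟨C1.z 0, C1.th 0, μ, h2, p1_of h1, fun e' he' => he'.uniq he hl ▸ h3,
    h4.imp id fun h5 w' hw' => (hu w' w hw' hw).trans h5⟩

end Pool.Agent.MP_ee8c61_ag.M3BQ
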