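import Pool.Agent.MP_ee8c61_ag.M3BQ.Br

/-! The integral of the weight over the fibre of a birational morphism of surfaces. -/

namespace Pool.Agent.MP_ee8c61_ag.M3BQ

open M3 M3RESID Set
open Pool.Agent.MP_96693b_ag.RS (Loc LocOf)
open Pool.Agent.MP_96693b_ag
open M3BK (Ovr Thr al Cf Itg IntA IntB)

variable {L : Type} [Field L] [Algebra ℂ L] {X : Set (Loc L)} {C : Loc L → Co L 2}
  {R R' : Loc L} {D : Co L 2} {c : ℂ}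

theorem ord_thr (hG : SGEN) (hR : Reg R D) (hX : Ovr X C R) (h : R ∉ X) {o : DV L}
    (ho : IsOrd R o) : ∃ x ∈ X, R.O ≤ x.O ∧ Thr x o := by
  obtain ⟨x, hx, h1, h2⟩ := hX.prop _ (dm_iff.2 ho.dm)
  exact ⟨x, hx, h1, ho.nz hR, h2, fun h3 =>
    h (hG L R x D _ o hR (rg_iff.1 (hX.rg x hx)) h1 ho (dm_iff.1 h3) ▸ hx)⟩

theorem exc (hO : SORD) (hG : SGEN) : M3BK.SEXC := by
  intro L _ _ X C D R hR hX h
  obtain ⟨o, ho⟩ := hO L R D (rg_iff.1 hR)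
  obtain ⟨x, hx, -, h1⟩ := ord_thr hG (rg_iff.1 hR) hX h ho
  exact ⟨o, dm_iff.2 ho.dm, x, hx, h1⟩

theorem le_un {x : Loc L} {V : ValuationSubring L} (h : M3BK.Le x V) {g : L} (hg : x.ev g ≠ 0) :
    Un V g :=
  ⟨RS.Loc.ne_zero_of_ev hg, h _ (RS.Loc.mem_of_ev hg),
    h _ (x.inv_mem g (RS.Loc.mem_of_ev hg) hg)⟩

theorem ev_inv_zero {x : Loc L} {g : L} (h1 : g ∉ x.O) (h2 : g⁻¹ ∈ x.O) : x.ev g⁻¹ = 0 := by
  by_contra h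
  exact h1 (inv_inv g ▸ x.inv_mem _ h2 h)

theorem ovr_q (hA : SABH) (hR : Reg R D) (hX : Ovr X C R) (h : R ∉ X) (hq : IsQ R D c R') :
    Ovr X C R' := by
  refine ⟨hX.rg, fun V hV => ?_, hX.sep⟩
  have hV' := dm_iff.1 hV
  obtain ⟨x, hx, h1, h2⟩ := hX.prop V (dm_iff.2 (hV'.mono hq.le))
  have hn := hV'.nun hq.z1
  have hs : sg D ∈ x.O := by
    by_contra hs
    have h3 := (hA L R x D _ hR (rg_iff.1 (hX.rg x hx)) h1 fun e => h (e ▸ hx)).resolve_left hs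
    refine nun_mul (h2 _ h3) (hV'.le hq.z1.1) hn (le_un h2 ?_)
    have h4 := mul_mem (x.O.algebraMap_mem c) h3
    rw [mul_sub, inv_mul_cancel₀ (sg_ne D), mul_comm, RS.Loc.ev_sub (one_mem _) h4,
      x.ev_mul _ (x.O.algebraMap_mem c) _ h3, ev_inv_zero hs h3, RS.Loc.ev_one]
    simp
  refine ⟨x, hx, hq.le_of h1 hs ?_, h2⟩
  by_contra e
  refine hn (le_un h2 ?_)
  rw [RS.Loc.ev_sub hs (x.O.algebraMap_mem c), x.ev_alg]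
  exact sub_ne_zero.2 e

/-- The curves that are contracted to `R`. -/
def NN (X : Set (Loc L)) (R : Loc L) : Set (DV L) := {G | M3BK.Dm R G.O ∧ ∃ x ∈ X, Thr x G}

theorem NN_sub (hq : IsQ R D c R') : NN X R' ⊆ NN X R :=
  fun _ h => ⟨dm_iff.2 ((dm_iff.1 h.1).mono hq.le), h.2⟩

theorem NN_ssub (hG : SGEN) (hO : SORD) (hE : SEXC) (hR : Reg R D) (hX : Ovr X C R) (h : R ∉ X)
    (hq : IsQ R D c R') : NN X R' ⊂ NN X R := by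
  obtain ⟨o, ho⟩ := hO L R D hR
  obtain ⟨x, hx, -, h1⟩ := ord_thr hG hR hX h ho
  refine ⟨NN_sub hq, fun h2 => ?_⟩
  have h3 := dm_iff.1 (h2 ⟨dm_iff.2 ho.dm, x, hx, h1⟩).1
  exact h3.nun hq.z1 (un_O.2 ⟨(qt D c).ne 1, (hE L R D o c R' hR ho hq).adp.vz' one_ne_zero⟩)

theorem fib_self (hN : M3BK.SNRM) (hX : Ovr X C R) (h : R ∈ X) : {x ∈ X | R.O ≤ x.O} = {R} := by
  refine eq_singleton_iff_unique_mem.2 ⟨⟨h, le_rfl⟩, fun x hx => ?_⟩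
  obtain ⟨V, hV⟩ := (hN L).1 x
  exact hX.sep V x hx.1 R h hV fun g hg => hV.1 g (hx.2 hg)

variable {F : Type} [Field F] [Algebra ℂ F] {ε : F} {d : Dv L} {ψ : L}

theorem wt_chart (hW : SWT) {x : Loc L} {D D' : Co L 2} {a a' : Fin 2 → ℂ} {m m' : Fin 2 → ℤ}
    (h : GP d ψ x D a m) (h' : GP d ψ x D' a' m') : M3BK.wt ε a m = M3BK.wt ε a' m' := by
  have h1 := (hW L F ε d ψ x D a m h).symm.trans (hW L F ε d ψ x D' a' m' h')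
  rwa [one_div, one_div, mul_inv, mul_inv] at h1

theorem al_add (ε : F) (a a' : ℂ) (m m' : ℤ) : al ε (a + a') (m + m') = al ε a m + al ε a' m' := by
  simp only [al, map_add, Int.cast_add]
  ring

theorem al_one (ε : F) : al ε 1 0 = 1 := by simp [al]

theorem v_mn {x : Loc L} {m : Fin 2 → ℤ} {o : DV L} (h : Mn x D ψ m) (hl : M3BK.Le x o.O) :
    o.v ψ = o.v (D.mon m) := by
  have h1 := un_O.1 (le_un hl h)
  have h2 := o.mul _ _ h1.1 (D.mon_ne m)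
  rw [div_mul_cancel₀ _ (D.mon_ne m), h1.2, zero_add] at h2
  exact h2

theorem v_mon0 {o : DV L} (h : ∀ i, o.v (D.z i) = 0) (m : Fin 2 → ℤ) : o.v (D.mon m) = 0 := by
  rw [Co.mon, Fin.prod_univ_two, o.mul _ _ (zpow_ne_zero _ (D.ne 0)) (zpow_ne_zero _ (D.ne 1)),
    v_zpow o (D.ne 0), v_zpow o (D.ne 1), h, h]
  simp

theorem al_sum_ne (hQ : SQEX) (hO : SORD) (hE : SEXC) (hD : SQAD) (hG : SGEN) (hC : M3BK.SCRV)
    {a : Loc L → Fin 2 → ℂ} {m : Loc L → Fin 2 → ℤ} {a₀ : Fin 2 → ℂ} {m₀ : Fin 2 → ℤ}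
    (hR : GP d ψ R D a₀ m₀) (hX : Ovr X C R) (h : R ∉ X)
    (hx : ∀ x ∈ X, R.O ≤ x.O → M3BK.GP d ψ (C x) x (a x) (m x) ∧ ∀ i, al ε (a x i) (m x i) ≠ 0) :
    al ε (a₀ 0) (m₀ 0) + al ε (a₀ 1) (m₀ 1) ≠ 0 := by
  obtain ⟨o, ho⟩ := hO L R D hR.reg
  obtain ⟨x, h1, h2, h3⟩ := ord_thr hG hR.reg hX h ho
  obtain ⟨Q, hq⟩ := hQ L R D 0 hR.reg
  have h4 := hE L R D o 0 Q hR.reg ho hq
  have h5 := (hD L d ψ R D a₀ m₀ hR).2 0 Q hq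
  have h6 : Exp d o (a₀ 0 + a₀ 1) := h4.exp h5.ad
  have h7 : o.v ψ = m₀ 0 + m₀ 1 := (v_mn h5.mn h4.le).trans (h4.adp.v_mon _)
  obtain ⟨g1, g2⟩ := hx x h1 h2
  have h8 := v_mn (D := C x) g1.mn h3.2.1
  rw [← al_add, ← h7]
  rcases (hC L (C x) x o g1.rg h3).2.2 with ⟨i, hi⟩ | ⟨h9, h10⟩
  · rw [h6.uniq (hi.exp g1.ad) hi.adp.vz, h8, hi.adp.v_mon]
    exact g2 i
  · rw [h6.uniq (h10 d _ g1.ad) h4.adp.vz, h8, v_mon0 h9, al_one]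
    exact one_ne_zero

theorem wt_qv (a : Fin 2 → ℂ) (m : Fin 2 → ℤ) (c : ℂ) : M3BK.wt ε (qv 1 c a) (qv 0 c m) =
    (al ε (a 0) (m 0) + al ε (a 1) (m 1))⁻¹ * if c = 0 then (al ε (a 1) (m 1))⁻¹ else 1 := by
  rw [← al_add]
  by_cases h : c = 0 <;> simp [M3BK.wt, qv, h, al_one]

theorem qv_ne {a : Fin 2 → ℂ} {m : Fin 2 → ℤ} (h : al ε (a 1) (m 1) ≠ 0)
    (hs : al ε (a 0) (m 0) + al ε (a 1) (m 1) ≠ 0) (c : ℂ) (i : Fin 2) :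
    al ε (qv 1 c a i) (qv 0 c m i) ≠ 0 := by
  rw [← al_add] at hs
  fin_cases i
  · exact hs
  · by_cases hc : c = 0 <;> simp [qv, hc, h, al_one]

theorem dls (hQ : SQEX) (hO : SORD) (hE : SEXC) (hD : SQAD) (hG : SGEN) (hA : SABH) (hW : SWT)
    (hL : SLIN) (hP : SEXL) : M3BK.OfDLS := by
  classical
  intro hcon hchi hIA hIB hN hC _ hX3 χ L _ _ F _ _ ε d ψ X W C a m D R a₀ m₀ hχ hW1 hW2 hR hne hX
    hx hfin hcf
  have IA := hIA χ L hχ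
  have IB := hIB χ L F hχ
  have hXc := IA.con _ _ _ hcf
  replace hR := gp_iff.1 hR
  change (NN X R).Finite at hfin
  induction hn : (NN X R).ncard using Nat.strong_induction_on generalizing R D a₀ m₀ W with
  | _ n ih =>
  have self : ∀ {R D a₀ m₀}, GP d ψ R D a₀ m₀ → R ∈ X → M3BK.GP d ψ (C R) R (a R) (m R) →
      M3BK.wt ε (a R) (m R) = M3BK.wt ε a₀ m₀ := fun h1 _ h3 => wt_chart hW (gp_iff.1 h3) h1
  by_cases h : R ∈ X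
  · obtain ⟨h1, h2⟩ := IA.pt W R hW1 hW2
    rw [fib_self hN hX h, IB.cst _ _ (M3BK.wt ε a₀ m₀) h1 fun x e => by
      rw [mem_singleton_iff.1 e]; exact self hR h (hx R h le_rfl).1, h2, one_smul]
  have hs := al_sum_ne hQ hO hE hD hG hC hR hX h hx
  have hfg := fg_of_conP hW1 hW2
  have step : ∀ D a₀ m₀ c Q, GP d ψ R D a₀ m₀ → al ε (a₀ 1) (m₀ 1) ≠ 0 →
      al ε (a₀ 0) (m₀ 0) + al ε (a₀ 1) (m₀ 1) ≠ 0 → IsQ R D c Q →
      Cf {x ∈ X | Q.O ≤ x.O} (fun x => M3BK.wt ε (a x) (m x)) ∧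
      Itg χ {x ∈ X | Q.O ≤ x.O} (fun x => M3BK.wt ε (a x) (m x)) =
        M3BK.wt ε (qv 1 c a₀) (qv 0 c m₀) := fun D a₀ m₀ c Q h1 h2 h3 hq => by
    have h4 := hP L (hcon L) R D ∅ hfg
    have h5 : Q ∈ {S | ∃ c ∉ (∅ : Finset ℂ), IsQ R D c S} := ⟨c, by simp, hq⟩
    refine ⟨IA.sub _ _ _ _ hcf (IA.up _ _ _ h4 h5 hXc) fun _ h => h.1, ?_⟩
    exact ih _ (hn ▸ ncard_lt_ncard (NN_ssub hG hO hE h1.reg hX h hq) hfin) _ _ Q _ _ h4 h5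
      (qv_ne h2 h3 c) (ovr_q hA h1.reg hX h hq) (fun x h6 h7 => hx x h6 (hq.le.trans h7))
      ((hD L d ψ R D a₀ m₀ h1).2 c Q hq) (hfin.subset (NN_sub hq)) rfl
  choose Q hq using fun c => hQ L R D c hR.reg
  obtain ⟨Q', hq'⟩ := hQ L R (sw D) 0 hR.reg.sw
  have hT : {c | (NN X (Q c)).Nonempty}.Finite := by
    refine (hfin.biUnion (t := fun G => {c | G ∈ NN X (Q c)}) fun G _ =>
      Set.Subsingleton.finite fun c hc c' hc' => ?_).subset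
      fun c ⟨G, hG⟩ => mem_biUnion (NN_sub (hq c) hG) hG
    exact (hq c).2.symm.trans ((dm_iff.1 hc.1).ev_eq (hq c).mem ((dm_iff.1 hc'.1).nun (hq c').z1))
  let T : Finset ℂ := insert 0 hT.toFinset
  have hE1 : ∀ c ∉ T, Q c ∈ X := fun c hc => by
    by_contra h1
    obtain ⟨G, h2⟩ := hX3 L X C _ (Q c) (rg_iff.2 ((hD L d ψ R D a₀ m₀ hR).2 c _ (hq c)).reg)
      (ovr_q hA hR.reg hX h (hq c)) h1
    exact hc (Finset.mem_insert_of_mem (hT.mem_toFinset.2 ⟨G, h2⟩))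
  let E : Set (Loc L) := {S | ∃ c ∉ T, IsQ R D c S}
  have hE2 : ConP E := hP L (hcon L) R D T hfg
  have hE3 : chiP χ E = 1 - T.card := hL L χ hχ (hchi χ L hχ.1) E (sg D) T hE2
    (fun P ⟨c, _, h1⟩ => h1.mem) ⟨fun P ⟨c, h0, h1⟩ => by rwa [← h1.2] at h0,
      fun P ⟨c, _, h1⟩ P' ⟨c', _, h2⟩ e => h1.uniq ((h2.2.symm.trans (e.symm.trans h1.2)) ▸ h2),
      fun c hc => ⟨Q c, ⟨c, hc, hq c⟩, (hq c).2⟩⟩
  have hE4 : ∀ x ∈ E, M3BK.wt ε (a x) (m x) = (al ε (a₀ 0) (m₀ 0) + al ε (a₀ 1) (m₀ 1))⁻¹ := by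
    rintro x ⟨c, h0, h1⟩
    have h2 : x ∈ X := (hq c).uniq h1 ▸ hE1 c h0
    rw [self ((hD L d ψ R D a₀ m₀ hR).2 c x h1) h2 (hx x h2 h1.le).1, wt_qv,
      if_neg fun e : c = 0 => h0 (e ▸ Finset.mem_insert_self _ _), mul_one]
  have hev : ∀ c (x : Loc L), (Q c).O ≤ x.O → sg D ∈ x.O ∧ x.ev (sg D) = c := fun c x h1 =>
    ⟨h1 (hq c).mem, (RS.Loc.ev_eq_of_le h1 (hq c).mem).trans (hq c).2⟩
  have hinf : ∀ x : Loc L, Q'.O ≤ x.O → sg D ∉ x.O := fun x h1 h2 => by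
    have h3 := h1 hq'.mem
    have h4 := (RS.Loc.ev_eq_of_le h1 hq'.mem).trans hq'.2
    rw [sg_sw] at h3 h4
    have h5 := x.ev_mul _ h2 _ h3
    rw [mul_inv_cancel₀ (sg_ne D), RS.Loc.ev_one, h4, mul_zero] at h5
    exact one_ne_zero h5
  have hdec : {x ∈ X | R.O ≤ x.O} =
      {x ∈ X | Q'.O ≤ x.O} ∪ ((⋃ c ∈ T, {x ∈ X | (Q c).O ≤ x.O}) ∪ E) := by
    refine Subset.antisymm (fun x ⟨h1, h2⟩ => ?_) ?_
    · by_cases h3 : sg D ∈ x.O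
      · have h4 := (hq _).le_of h2 h3 rfl
        by_cases h5 : x.ev (sg D) ∈ T
        · exact Or.inr (Or.inl (mem_biUnion h5 ⟨h1, h4⟩))
        · have h6 : x ∈ {y ∈ X | (Q (x.ev (sg D))).O ≤ y.O} := ⟨h1, h4⟩
          rw [fib_self hN (ovr_q hA hR.reg hX h (hq _)) (hE1 _ h5), mem_singleton_iff] at h6
          exact Or.inr (Or.inr ⟨_, h5, (congrArg (IsQ R D _) h6).mpr (hq _)⟩)
      · have h4 := (hA L R x D _ hR.reg (rg_iff.1 (hX.rg x h1)) h2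
          fun e => h (e ▸ h1)).resolve_left h3
        exact Or.inl ⟨h1, hq'.le_of h2 (sg_sw D ▸ h4) (sg_sw D ▸ ev_inv_zero h3 h4)⟩
    · rintro x (⟨h1, h2⟩ | h1 | ⟨c, h0, h1⟩)
      · exact ⟨h1, hq'.le.trans h2⟩
      · obtain ⟨c, -, h2, h3⟩ := mem_iUnion₂.1 h1
        exact ⟨h2, (hq c).le.trans h3⟩
      · exact ⟨(hq c).uniq h1 ▸ hE1 c h0, h1.le⟩
  have s1 := step _ _ _ 0 Q' (hD L d ψ R D a₀ m₀ hR).1 (hne 0) (by rwa [add_comm] at hs) hq'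
  have s2 := fun c => step _ _ _ c (Q c) hR (hne 1) hs (hq c)
  obtain ⟨s3, s4⟩ := IB.sum ℂ T (fun c => {x ∈ X | (Q c).O ≤ x.O}) _ (fun c _ => (s2 c).1)
    fun c _ c' _ hc => disjoint_left.2 fun x h1 h2 =>
      hc ((hev c x h1.2).2.symm.trans (hev c' x h2.2).2)
  have s5 := IA.cst _ E _ _ hE2 hE4
  have d1 : Disjoint (⋃ c ∈ T, {x ∈ X | (Q c).O ≤ x.O}) E := disjoint_left.2 fun x h1 h2 => by
    obtain ⟨c, h3, -, h4⟩ := mem_iUnion₂.1 h1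
    obtain ⟨c', h5, h6⟩ := h2
    exact h5 ((hev c x h4).2.symm.trans h6.2 ▸ h3)
  have d2 : Disjoint {x ∈ X | Q'.O ≤ x.O} ((⋃ c ∈ T, {x ∈ X | (Q c).O ≤ x.O}) ∪ E) :=
    disjoint_left.2 fun x h1 h2 => hinf x h1.2 (by
      rcases h2 with h2 | ⟨c, -, h2⟩
      · obtain ⟨c, -, -, h4⟩ := mem_iUnion₂.1 h2
        exact (hev c x h4).1
      · exact h2.mem)
  rw [hdec, IB.union _ _ _ s1.1 (IA.union _ _ _ _ s3 s5) d2, IB.union _ _ _ s3 s5 d1, s1.2, s4,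
    IB.cst _ _ _ hE2 hE4, hE3, Finset.sum_congr rfl fun c _ => (s2 c).2]
  have h0 : (0 : ℂ) ∈ T := Finset.mem_insert_self _ _
  rw [← Finset.add_sum_erase _ _ h0, Finset.sum_congr rfl fun c hc => (wt_qv a₀ m₀ c).trans
    (by rw [if_neg (Finset.ne_of_mem_erase hc)]), Finset.sum_const, Finset.card_erase_of_mem h0,
    wt_qv, wt_qv, if_pos rfl, if_pos rfl, nsmul_eq_mul, zsmul_eq_mul,
    Nat.cast_pred (Finset.card_pos.2 ⟨_, h0⟩)]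
  have e0 := hne 0
  have e1 := hne 1
  simp only [M3BK.wt, sv, Matrix.cons_val_zero, Matrix.cons_val_one, add_comm (al ε (a₀ 1) _)]
  push_cast
  field_simp
  ring

end Pool.Agent.MP_ee8c61_ag.M3BQ
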