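import Pool.Agent.MP_ee8c61_ag.M3BQ.Kit

/-! Factorisation of a domination of regular points through the blow-up. -/

namespace Pool.Agent.MP_ee8c61_ag.M3BQ

open M3 M3RESID Polynomial
open Pool.Agent.MP_96693b_ag.RS (Loc LocOf Chart IsCrd)
open Pool.Agent.MP_96693b_ag

variable {L : Type} [Field L] [Algebra ℂ L] {R S : Loc L} {y g x : L}

/-- The values at `y` of the polynomials with coefficients in the maximal ideal. -/
def abh_J (S : Loc L) (y x : L) : Prop := ∃ q : L[X], (∀ i, q.coeff i ∈ S.m) ∧ x = q.eval y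

theorem abh_C (h : g ∈ S.m) : abh_J S y g :=
  ⟨C g, fun i => by
    rw [coeff_C]
    split_ifs
    · exact h
    · exact zero_mem _, eval_C.symm⟩

theorem abh_add (h : abh_J S y g) (h' : abh_J S y x) : abh_J S y (g + x) := by
  obtain ⟨q, a, rfl⟩ := h
  obtain ⟨q', a', rfl⟩ := h'
  exact ⟨q + q', fun i => by rw [coeff_add]; exact add_mem (a i) (a' i), eval_add.symm⟩

theorem abh_mul (hle : R.O ≤ S.O) (hg : g ∈ R.O ⊔ Algebra.adjoin ℂ {y}) :
    ∀ x, abh_J S y x → abh_J S y (g * x) := by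
  refine sup_ind (p := fun g => ∀ x, abh_J S y x → abh_J S y (g * x)) ?_ ?_ ?_ ?_ hg
  · rintro g hg _ ⟨q, a, rfl⟩
    exact ⟨C g * q, fun i => by rw [coeff_C_mul]; exact S.m.smul_mem ⟨g, hle hg⟩ (a i),
      eval_C_mul.symm⟩
  · rintro _ ⟨q, a, rfl⟩
    refine ⟨X * q, fun i => ?_, by rw [eval_mul, eval_X]⟩
    cases i with
    | zero => rw [coeff_X_mul_zero]; exact zero_mem _
    | succ i => rw [coeff_X_mul]; exact a i
  · intro g _ h _ h1 h2 x hx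
    rw [add_mul]
    exact abh_add (h1 x hx) (h2 x hx)
  · intro g _ h _ h1 h2 x hx
    rw [mul_assoc]
    exact h1 _ (h2 x hx)

theorem abh_key (hU : SUU) (hN : ∀ g : L, IsIntegral S.O g → g ∈ S.O) {H : ℂ[X]} (h0 : H ≠ 0)
    (h : abh_J S y (aeval y H)) : y ∈ S.O ∨ y⁻¹ ∈ S.O := by
  obtain ⟨q, a, e⟩ := h
  refine hU L S hN (H.map (algebraMap ℂ L) - q) y (fun i => ?_) ⟨H.natDegree, ?_⟩ ?_
  · rw [coeff_sub, coeff_map]
    exact sub_mem (S.O.algebraMap_mem _) (a i).1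
  · rw [coeff_sub, coeff_map, RS.Loc.ev_sub (S.O.algebraMap_mem _) (a _).1, (a _).2, S.ev_alg,
      sub_zero]
    exact leadingCoeff_ne_zero.2 h0
  · rw [eval_sub, eval_map_algebraMap, e, sub_self]

theorem ofABH : OfABH := by
  intro hL hO hN hU hG L _ _ R S C C' hR hS hle hne
  by_contra hc
  obtain ⟨o, ho⟩ := hO L R C hR
  refine hne (hG L R S C C' o hR hS hle ho (dm_O.2 fun g hg => ?_))
  by_cases g0 : g = 0
  · rw [g0]
    exact ⟨zero_mem _, fun _ => zero_mem _⟩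
  obtain ⟨q, hq, q0, hp⟩ := hR.frac g
  obtain ⟨k, H, k1, k2, H0, hH⟩ := hL L R C hR _ hp (mul_ne_zero g0 q0)
  obtain ⟨l, H', l1, l2, -, hH'⟩ := hL L R C hR _ hq q0
  have v1 := ho.v_eq hp k1 k2
  rw [o.mul _ _ g0 q0, ho.v_eq hq l1 l2] at v1
  have s0 := C.ne 0
  have s1 : C.z 0 ∈ S.m := ⟨hle (hR.z_mem 0),
    (RS.Loc.ev_eq_of_le hle (hR.z_mem 0)).trans (hR.z_m 0).2⟩
  have b1 : q / C.z 0 ^ l ∈ R.O ⊔ Algebra.adjoin ℂ {sg C} := by
    have h1 : aeval (sg C) H' ∈ R.O ⊔ Algebra.adjoin ℂ {sg C} :=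
      (le_sup_right : Algebra.adjoin ℂ {sg C} ≤ _) (aeval_mem_adjoin_singleton ℂ _)
    have h2 := add_mem h1 (mul_mem hH' ((le_sup_left : R.O ≤ _) (hR.z_mem 0)))
    rwa [div_mul_cancel₀ _ s0, add_sub_cancel] at h2
  have key : ∀ j : ℕ, l = k + j → g * C.z 0 ^ j ∉ S.m := fun j e hm => by
    refine hc (abh_key hU (hN L S C' hS) H0 ?_)
    have h1 := abh_add (abh_mul hle b1 _ (abh_C hm)) (abh_mul hle (neg_mem hH) _ (abh_C s1))
    refine (congrArg (abh_J S (sg C)) ?_).mp h1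
    rw [e, pow_add]
    field_simp
    ring
  have h1 : l ≤ k := by
    by_contra h
    obtain ⟨j, hj⟩ : ∃ j, l = k + (j + 1) := ⟨l - k - 1, by omega⟩
    refine key _ hj ?_
    rw [pow_succ, ← mul_assoc]
    exact S.m.smul_mem ⟨_, mul_mem hg (pow_mem s1.1 j)⟩ s1
  refine ⟨Or.inr (by omega), fun e => Or.inr ?_⟩
  by_contra h
  exact key 0 (by omega) (by rw [pow_zero, mul_one]; exact ⟨hg, e⟩)

end Pool.Agent.MP_ee8c61_ag.M3BQ
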