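import Pool.Agent.MP_ee8c61_ag.M3BQ.Kit

/-!
A divisorial valuation is the order of an iterated quadratic transform.
-/

namespace Pool.Agent.MP_ee8c61_ag.M3BQ

open M3 M3RESID
open Pool.Agent.MP_96693b_ag.RS (Loc)

variable {L : Type} [Field L] [Algebra ℂ L]

/-- The Jacobian of `C` with respect to `C₀`. -/
def abv_jac (C₀ C : Co L 2) : L :=
  C₀.D 0 (C.z 0) * C₀.D 1 (C.z 1) - C₀.D 1 (C.z 0) * C₀.D 0 (C.z 1)

theorem abv_ne (C₀ C : Co L 2) : abv_jac C₀ C ≠ 0 := fun h => by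
  have h1 : C₀.D 1 (C.z 0) • C₀.D 0 - C₀.D 0 (C.z 0) • C₀.D 1 = 0 := C.span _ fun i => by
    rw [Derivation.sub_apply, Derivation.smul_apply, Derivation.smul_apply, smul_eq_mul,
      smul_eq_mul]
    fin_cases i
    · exact sub_eq_zero.2 (mul_comm _ _)
    · exact neg_eq_zero.1 ((neg_sub _ _).trans h)
  have h2 := DFunLike.congr_fun h1 (C₀.z 0)
  have h3 := DFunLike.congr_fun h1 (C₀.z 1)
  simp [C₀.dual] at h2 h3
  have h4 := C₀.exp_apply (C.D 0) (C.z 0)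
  simp [C.dual, h2, h3] at h4

theorem abv_sw (C₀ C : Co L 2) : abv_jac C₀ (sw C) = -abv_jac C₀ C := by
  show C₀.D 0 (C.z 1) * C₀.D 1 (C.z 0) - C₀.D 1 (C.z 1) * C₀.D 0 (C.z 0) = _
  rw [abv_jac]
  ring

theorem abv_qt (C₀ C : Co L 2) (c : ℂ) : abv_jac C₀ C = C.z 0 * abv_jac C₀ (qt C c) := by
  rw [abv_jac, abv_jac, qt_z0, qt_z1, map_sub, map_sub, Derivation.map_algebraMap,
    Derivation.map_algebraMap]
  conv_lhs => rw [z1_eq C]
  simp only [Derivation.leibniz, smul_eq_mul]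
  ring

theorem abv_mem {o : DV L} {C₀ C : Co L 2} {i : Fin 2} (h : C₀.At o i) (hz : ∀ j, C.z j ∈ o.F 0) :
    0 ≤ o.v (abv_jac C₀ C) :=
  Or.resolve_left (sub_mem (F_mul0 (h.D 0 _ (hz 0)) (h.D 1 _ (hz 1)))
    (F_mul0 (h.D 1 _ (hz 0)) (h.D 0 _ (hz 1))) : abv_jac C₀ C ∈ o.F 0) (abv_ne C₀ C)

theorem ofABV : OfABV := by
  intro hQ hG hO _ hT L _ _ Φ o C₀ i hΦ h0
  have key : ∀ n : ℕ, ∀ R C, Reg R C → Φ R C → Dm o.O R → o.v (abv_jac C₀ C) < n →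
      ∃ R' C', Reg R' C' ∧ Φ R' C' ∧ R.O ≤ R'.O ∧ IsOrd R' o := fun n => by
    induction n with
    | zero =>
      intro R C h1 _ h3 h4
      have := abv_mem (C := C) h0 fun j => h3.le (h1.z_mem j)
      omega
    | succ n ih =>
      have step : ∀ R C, Reg R C → Φ R C → Dm o.O R → o.v (abv_jac C₀ C) < (n + 1 : ℕ) →
          sg C ∈ o.O → ∃ R' C', Reg R' C' ∧ Φ R' C' ∧ R.O ≤ R'.O ∧ IsOrd R' o := by
        intro R C h1 h2 h3 h4 h5
        by_cases h6 : ∀ c : ℂ, Un o.O (sg C - algebraMap ℂ L c)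
        · obtain ⟨o', h7⟩ := hO L R C h1
          exact ⟨R, C, h1, h2, le_rfl,
            dv_ext (dat_nz h0) (h7.nz h1) (hT L R C o' o.O h1 h7 h3 h5 h6) ▸ h7⟩
        · obtain ⟨c, h6⟩ := not_forall.1 h6
          obtain ⟨R', h7⟩ := hQ L R C c h1
          have h8 := hG L R C c R' h1 h7
          have h9 := ((dm_O.1 h3 _ (h1.z_mem 0)).2 (h1.z_m 0).2).resolve_left (C.ne 0)
          rw [abv_qt C₀ C c, o.mul _ _ (C.ne 0) (abv_ne _ _)] at h4
          obtain ⟨R'', C'', a1, a2, a3, a4⟩ := ih R' _ h8 (hΦ.qt R C c R' h1 h2 h7)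
            (h7.dm h3 h5 h6) (by omega)
          exact ⟨R'', C'', a1, a2, h7.le.trans a3, a4⟩
      intro R C h1 h2 h3 h4
      rcases o.O.mem_or_inv_mem (sg C) with h5 | h5
      · exact step R C h1 h2 h3 h4 h5
      · exact step R (sw C) h1.sw (hΦ.sw R C h1 h2) h3 (by rwa [abv_sw, o.neg])
          (by rwa [sg_sw])
  intro R C h1 h2 h3
  exact key ((o.v (abv_jac C₀ C)).toNat + 1) R C h1 h2 h3 (by omega)

end Pool.Agent.MP_ee8c61_ag.M3BQ
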