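import Pool.Agent.MP_ee8c61_ag.M3BQ.Q
import Pool.Agent.MP_ee8c61_ag.M3B1.Dvr

/-!
The valuations of the coordinate curves at a regular point.
-/

namespace Pool.Agent.MP_ee8c61_ag.M3BQ

open M3 M3RESID
open Pool.Agent.MP_96693b_ag.RS (Loc LocOf Chart IsCrd)

variable {L : Type} [Field L] [Algebra ℂ L] {n : ℕ} {R : Loc L} {κ : Chart L n}

theorem cdv_dvd (h : IsCrd R κ) (i : Fin n) (g : R.O) :
    (⟨κ.x i, h.x_mem i⟩ : R.O) ∣ g ↔ (g : L) ∈ κ.I R {i} := by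
  rw [Chart.I_singleton, Loc.mem_span_singleton]
  exact ⟨fun ⟨a, e⟩ => ⟨a, a.2, (congrArg Subtype.val e).trans (mul_comm _ _)⟩,
    fun ⟨a, ha, e⟩ => ⟨⟨a, ha⟩, Subtype.ext (e.trans (mul_comm _ _))⟩⟩

theorem cdv_prime (h : IsCrd R κ) (i : Fin n) : Prime (⟨κ.x i, h.x_mem i⟩ : R.O) := by
  refine ⟨fun e => h.x_ne_zero i (congrArg Subtype.val e), fun e => ?_, fun a b e => ?_⟩
  · exact Loc.one_notMem_m (h.I_le_m ((cdv_dvd h i 1).1 e.dvd))
  · rw [cdv_dvd h] at e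
    rw [cdv_dvd h, cdv_dvd h]
    exact h.prime a.2 b.2 e

theorem scdv : SCDV := by
  intro L _ _ R C i hR
  have h := hR.crd
  obtain ⟨d, hd⟩ := M3B1.rowDVR L R.O (C.z i) (h.x_mem i) R.noeth (fun x => by
    obtain ⟨q, a, b, c⟩ := hR.frac x
    exact ⟨q, a, b, mul_comm x q ▸ c⟩) (cdv_prime h i)
  refine ⟨d, ⟨fun c => hd.le _ (R.O.algebraMap_mem c), fun j => ?_, fun j g hg => ?_⟩, hd.le,
    fun g hg h1 => by rw [div_eq_mul_inv]; exact hd.div g hg h1⟩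
  · split_ifs with e
    · rw [e, hd.one]
    · have h0 : 0 ≤ d.v (C.z j) := (hd.le _ (h.x_mem j)).resolve_left (C.ne j)
      refine le_antisymm (not_lt.1 fun h1 => e ?_) h0
      have h2 := hd.div _ (h.x_mem j) (Or.inr h1)
      have h3 : (ch C).x j ∈ (ch C).I R {i} := by
        rw [Chart.I_singleton, Loc.mem_span_singleton]
        exact ⟨_, h2, (inv_mul_cancel_right₀ (C.ne i) _).symm⟩
      exact Finset.mem_singleton.1 (h.x_mem_I.1 h3)
  · obtain ⟨s, hs, us, hsg⟩ := hd.loc g hg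
    have e : C.D j g = (C.D j (s * g) - g * C.D j s) * s⁻¹ := by
      rw [Derivation.leibniz, smul_eq_mul, smul_eq_mul, add_sub_cancel_right, mul_comm s,
        mul_inv_cancel_right₀ us.1]
    rw [e]
    exact mul_mem (s := d.O) (sub_mem (hd.le _ (h.pres j _ hsg))
      (mul_mem (s := d.O) hg (hd.le _ (h.pres j _ hs)))) us.2.2

end Pool.Agent.MP_ee8c61_ag.M3BQ
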