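import Pool.Agent.MP_ee8c61_ag.M3BQ.Kit

/-!
The logarithmic derivative of a monomial along an exceptional curve of exponent zero.
-/

namespace Pool.Agent.MP_ee8c61_ag.M3BQ

open M3 M3RESID
open Pool.Agent.MP_96693b_ag.RS (Loc LocOf Chart IsCrd)
open Pool.Agent.MP_96693b_ag

variable {L : Type} [Field L] [Algebra ℂ L]

theorem exp_mon (C : Co L 2) (N : ℕ) :
    C.mon (fun _ => -(N : ℤ)) = (C.z 0 ^ N * C.z 1 ^ N)⁻¹ := by
  rw [Co.mon, Fin.prod_univ_two, zpow_neg, zpow_neg, zpow_natCast, zpow_natCast, mul_inv]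

theorem exp_log {C : Co L 2} {O : Subalgebra ℂ L} {N : ℕ} {w : VF L}
    (h : w ∈ C.F O fun _ => -(N : ℤ)) : ∃ r ∈ O, ∃ r' ∈ O,
      w (C.z 0) = C.z 0 * r / (C.z 0 ^ (2 * N) * sg C ^ N) ∧
      w (sg C) = sg C * r' / (C.z 0 ^ (2 * N) * sg C ^ N) := by
  have s0 := C.ne 0
  have s1 := C.ne 1
  refine ⟨_, h 0, _, sub_mem (h 1) (h 0), ?_, ?_⟩
  · rw [exp_mon, sg, div_pow]
    field_simp
    ring
  · rw [exp_mon, sg, div_pow, Derivation.leibniz_div, smul_eq_mul, smul_eq_mul, smul_eq_mul]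
    field_simp
    ring

theorem exp_sw {e : Dv L} {v : VF L} {R : Loc L} {C : Co L 2} (h : Pol e v R C) :
    Pol e v R (sw C) := by
  obtain ⟨u, hu, N, h⟩ := h
  refine ⟨u, hu, N, fun i => ?_⟩
  have : (sw C).mon (fun _ => -(N : ℤ)) = C.mon fun _ => -(N : ℤ) := by
    rw [exp_mon, exp_mon]
    exact congrArg _ (mul_comm _ _)
  rw [this]
  fin_cases i
  · exact h 1
  · exact h 0

theorem exp_qt {e : Dv L} {v : VF L} {R R' : Loc L} {C : Co L 2} {c : ℂ} (hR : Reg R C)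
    (h : Pol e v R C) (hq : IsQ R C c R') : Pol e v R' (qt C c) := by
  obtain ⟨u, hu, N, h⟩ := h
  obtain ⟨r, hr, r', hr', e0, e1⟩ := exp_log h
  have s0 := C.ne 0
  have s1 := sg_ne C
  have s2 : sg C - algebraMap ℂ L c ≠ 0 := (qt C c).ne 1
  have m0 := hq.le (hR.z_mem 0)
  have m1 := hq.z1.1
  have m2 : (sg C - algebraMap ℂ L c) / sg C ∈ R'.O := by
    by_cases hc : c = 0
    · rw [hc, map_zero, sub_zero, div_self s1]
      exact one_mem _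
    · exact RS.Loc.div_mem m1 hq.mem (hq.2 ▸ hc)
  refine ⟨u, hu, 2 * N + 1, Fin.forall_fin_two.2 ⟨?_, ?_⟩⟩ <;> rw [exp_mon, qt_z0, qt_z1]
  · have : (v - u) (C.z 0) / (C.z 0 * (C.z 0 ^ (2 * N + 1) *
        (sg C - algebraMap ℂ L c) ^ (2 * N + 1))⁻¹) = r * C.z 0 *
        (sg C - algebraMap ℂ L c) ^ (N + 1) * ((sg C - algebraMap ℂ L c) / sg C) ^ N := by
      rw [e0, div_pow]
      generalize sg C - algebraMap ℂ L c = t at s2
      field_simp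
      ring
    rw [this]
    exact mul_mem (mul_mem (mul_mem (hq.le hr) m0) (pow_mem m1 _)) (pow_mem m2 _)
  · have : (v - u) (sg C - algebraMap ℂ L c) / ((sg C - algebraMap ℂ L c) * (C.z 0 ^ (2 * N + 1) *
        (sg C - algebraMap ℂ L c) ^ (2 * N + 1))⁻¹) = sg C * r' * C.z 0 *
        (sg C - algebraMap ℂ L c) ^ N * ((sg C - algebraMap ℂ L c) / sg C) ^ N := by
      rw [map_sub, Derivation.map_algebraMap, sub_zero, e1, div_pow]
      generalize sg C - algebraMap ℂ L c = t at s2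
      field_simp
      ring
    rw [this]
    exact mul_mem (mul_mem (mul_mem (mul_mem hq.mem (hq.le hr')) m0) (pow_mem m1 _)) (pow_mem m2 _)

theorem exp_der {S : Set L} {D : VF L} (h : ∀ g ∈ S, D g ∈ Algebra.adjoin ℂ S) :
    ∀ g ∈ Algebra.adjoin ℂ S, D g ∈ Algebra.adjoin ℂ S := fun g hg => by
  induction hg using Algebra.adjoin_induction with
  | mem x hx => exact h x hx
  | algebraMap r => rw [Derivation.map_algebraMap]; exact zero_mem _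
  | add x y _ _ h1 h2 => rw [map_add]; exact add_mem h1 h2
  | mul x y hx hy h1 h2 =>
    rw [Derivation.leibniz]
    exact add_mem (mul_mem hx h2) (mul_mem hy h1)

theorem exp_rat {y : L} (h : Rat y) {w : VF L} (hw : w y = 0) : w = 0 := by
  ext g
  obtain ⟨p, q, rfl⟩ := (IntermediateField.mem_adjoin_simple_iff ℂ g).1
    (h.2 ▸ IntermediateField.mem_top : g ∈ IntermediateField.adjoin ℂ {y})
  simp [Derivation.leibniz_div, Derivation.map_aeval, hw]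

theorem ofEXP : OfEXP := by
  intro hEX hAD hXC hRAT hABV L _ _ k _ _ P C₀ i e v b e₁ ψ R₀ C₁ a₀ m₀ hAt hE hb hG hP hDm hR
  obtain ⟨R, C, hReg, ⟨⟨a, m, hG⟩, u₀, hu₀, N, hP⟩, -, hO⟩ := hABV L
    (fun R C => (∃ a m, GP e ψ R C a m) ∧ Pol e v R C) P.o C₀ i
    ⟨fun R C _ ⟨⟨a, m, h⟩, h'⟩ => ⟨⟨_, _, (hAD L e ψ R C a m h).1⟩, exp_sw h'⟩,
      fun R C c R' hr ⟨⟨a, m, h⟩, h'⟩ hq =>
        ⟨⟨_, _, (hAD L e ψ R C a m h).2 c R' hq⟩, exp_qt hr h' hq⟩⟩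
    hAt R₀ C₁ hG.reg ⟨⟨a₀, m₀, hG⟩, hP⟩ hDm
  obtain ⟨Q, hQ⟩ := hEX L R C 0 hReg
  have hD := hXC L R C P.o 0 Q hReg hO hQ
  have h0 : a 0 + a 1 = 0 := (hD.exp ((hAD L e ψ R C a m hG).2 0 Q hQ).ad).uniq hE hD.adp.vz
  have s0 := C.ne 0
  have s1 := sg_ne C
  have z1 : (qt C 0).z 1 = sg C := by rw [qt_z1, map_zero, sub_zero]
  have v0 : P.o.v (C.z 0) = 1 := hD.adp.vz
  have v1 : P.o.v (sg C) = 0 := z1 ▸ hD.adp.vz' (by decide)
  obtain ⟨O, hOe⟩ : ∃ O, O = Algebra.adjoin ℂ ((R.O : Set L) ∪ {sg C, (sg C)⁻¹}) := ⟨_, rfl⟩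
  have le : ∀ g ∈ R.O, g ∈ O := fun g hg => hOe ▸ Algebra.subset_adjoin (Or.inl hg)
  have m1 : sg C ∈ O := hOe ▸ Algebra.subset_adjoin (Or.inr (Or.inl rfl))
  have m2 : (sg C)⁻¹ ∈ O := hOe ▸ Algebra.subset_adjoin (Or.inr (Or.inr rfl))
  have m0 := le _ (hReg.z_mem 0)
  have hπ : ∀ g ∈ O, g ∈ P.o.F 0 ∧
      P.π g ∈ Algebra.adjoin ℂ {P.π (sg C), (P.π (sg C))⁻¹} := fun g hg => by
    rw [hOe] at hg
    induction hg using Algebra.adjoin_induction with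
    | mem x hx =>
      rcases hx with hx | rfl | rfl
      · have h1 := RS.Loc.sub_ev_mem hx
        refine ⟨(dm_O.1 hO.dm x hx).1, ?_⟩
        rw [Pl.π_congr (cst_F _ _) ((dm_O.1 hO.dm _ h1.1).2 h1.2), P.π_cst]
        exact Subalgebra.algebraMap_mem _ _
      · exact ⟨Or.inr v1.ge, Algebra.subset_adjoin (Or.inl rfl)⟩
      · refine ⟨Or.inr (by rw [DV.inv, v1]; rfl), Algebra.subset_adjoin (Or.inr ?_)⟩
        have := Pl.π_zpow s1 v1 (-1)
        rw [zpow_neg_one, zpow_neg_one] at this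
        exact this
    | algebraMap r => exact ⟨cst_F _ _, P.π_cst r ▸ Subalgebra.algebraMap_mem _ _⟩
    | add x y _ _ h1 h2 => exact ⟨add_mem h1.1 h2.1, P.add _ h1.1 _ h2.1 ▸ add_mem h1.2 h2.2⟩
    | mul x y _ _ h1 h2 => exact ⟨F_mul0 h1.1 h2.1, P.mul _ h1.1 _ h2.1 ▸ mul_mem h1.2 h2.2⟩
  have hS : (qt C 0).St O := by
    refine ⟨Fin.forall_fin_two.2 ⟨m0, z1 ▸ m1⟩, fun j => ?_⟩
    have h1 : (qt C 0).D j (sg C) ∈ O := by
      rw [← z1, Co.dual]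
      split_ifs
      exacts [one_mem _, zero_mem _]
    rw [hOe]
    refine exp_der ?_
    rw [← hOe]
    rintro g (hg | rfl | rfl)
    · have d0 := le _ (hReg.st.D 0 g hg)
      have d1 := le _ (hReg.st.D 1 g hg)
      fin_cases j
      · exact add_mem d0 (mul_mem m1 d1)
      · exact mul_mem m0 d1
    · exact h1
    · rw [Derivation.leibniz_inv]
      exact mul_mem (neg_mem (pow_mem m2 2)) h1
  obtain ⟨r, hr, r', hr', e0, e1⟩ := exp_log hP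
  obtain ⟨u₁, hu₁, hw⟩ := Co.redG (d := e) hS (s := {0}) (a := fun _ => 0)
    (c := ![-((2 * N : ℕ) : ℤ), 0]) (c' := 0) (v := v - u₀) (fun j hj => by
      have t0 : (qt C 0).th 0 = C.th 0 + C.th 1 := by
        show C.z 0 • (C.D 0 + sg C • C.D 1) = C.z 0 • C.D 0 + C.z 1 • C.D 1
        rw [smul_add, smul_smul, ← z1_eq]
      have : (e.δ ((qt C 0).th 0) - algebraMap ℂ L 0) / C.z 0 =
          (e.δ (C.th 0) - algebraMap ℂ L (a 0)) / C.z 0 +
            sg C * ((e.δ (C.th 1) - algebraMap ℂ L (a 1)) / C.z 1) := by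
        rw [t0, ← h0, map_add, map_add, z1_eq C]
        field_simp
        ring
      rw [Finset.mem_singleton.1 hj, qt_z0, this]
      exact add_mem (le _ (hG.ad 0)) (mul_mem m1 (le _ (hG.ad 1))))
    (by
      have : (qt C 0).mon ![-((2 * N : ℕ) : ℤ), 0] = (C.z 0 ^ (2 * N))⁻¹ := by
        rw [Co.mon, Fin.prod_univ_two, ← zpow_natCast, ← zpow_neg]
        exact (congrArg _ (zpow_zero _)).trans (mul_one _)
      refine Fin.forall_fin_two.2 ⟨?_, ?_⟩ <;> rw [this]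
      · rw [if_pos (Finset.mem_singleton_self _), qt_z0, e0, show C.z 0 * r /
          (C.z 0 ^ (2 * N) * sg C ^ N) / (C.z 0 * (C.z 0 ^ (2 * N))⁻¹) = r * (sg C)⁻¹ ^ N by
            rw [inv_pow]; field_simp]
        exact mul_mem (le _ hr) (pow_mem m2 _)
      · rw [if_neg (by decide), z1, e1, show sg C * r' /
          (C.z 0 ^ (2 * N) * sg C ^ N) / (1 * (C.z 0 ^ (2 * N))⁻¹) = sg C * r' * (sg C)⁻¹ ^ N by
            rw [inv_pow]; field_simp]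
        exact mul_mem (mul_mem m1 (le _ hr')) (pow_mem m2 _))
    (by
      rw [map_sub, e.δ_Ex hu₀, hb, Co.mon_zero, sub_zero, div_one]
      exact O.algebraMap_mem b)
    (Fin.forall_fin_two.2 ⟨fun h => absurd (Finset.mem_singleton_self _) h, fun _ => le_rfl⟩)
    fun j _ l _ hl => Co.ne_of_lt (c := 0) (by simp) hl
  rw [sub_sub] at hw
  obtain ⟨w, hwe⟩ : ∃ w, w = v - (u₀ + u₁) := ⟨_, rfl⟩
  refine ⟨u₀ + u₁, add_mem hu₀ hu₁, ?_⟩
  rw [← hwe] at hw ⊢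
  have w0 : w (C.z 0) / C.z 0 ∈ O := by simpa [Co.mon_zero, qt_z0] using hw 0
  have w1 : w (sg C) ∈ O := by simpa [Co.mon_zero, z1] using hw 1
  obtain ⟨C', hC'⟩ := Pl.exists_RsC hD.adp fun w hw =>
    exp_rat (hRAT L k P R C hReg hO) (z1 ▸ hw 0)
  have y : C'.z 0 = P.π (sg C) := z1 ▸ hC' 0
  refine ⟨hD.adp.mem_LV.2 ⟨?_, Fin.forall_fin_two.2 ⟨fun h => absurd rfl h, fun _ => ?_⟩⟩,
    C', a 1, y ▸ hRAT L k P R C hReg hO, ?_, y ▸ (hπ _ ?_).2⟩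
  · rw [qt_z0, ← div_mul_cancel₀ (w _) s0]
    exact P.o.F_mul (hπ _ w0).1 (Or.inr v0.ge)
  · exact z1 ▸ (hπ _ w1).1
  · have t1 : (qt C 0).th 1 = C.th 1 := by
      show (qt C 0).z 1 • C.z 0 • C.D 1 = C.z 1 • C.D 1
      rw [z1, smul_smul, mul_comm, ← z1_eq]
    rw [← hR _ _ (hC'.th hD.adp 0), ← P.π_cst]
    refine Pl.π_congr (cst_F _ _) ?_
    change e.δ ((qt C 0).th 1) - _ ∈ _
    rw [t1, ← div_mul_cancel₀ (_ - _) (C.ne 1)]
    exact F_mul0 (hπ _ (le _ (hG.ad 1))).1 (Or.inr (hO.v_z hReg 1).ge)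
  · have u0 := RS.Loc.mem_of_ev hG.mn
    have u1 := R.inv_mem _ u0 hG.mn
    have u2 := RS.Loc.ne_zero_of_ev hG.mn
    obtain ⟨U, hU⟩ : ∃ U, U = ψ / C.mon m := ⟨_, rfl⟩
    rw [← hU] at u0 u1 u2
    have u3 : w U ∈ O := by
      rw [(qt C 0).exp_apply w U, Fin.sum_univ_two, qt_z0, z1, ← div_mul_cancel₀ (w (C.z 0)) s0]
      exact add_mem (mul_mem (mul_mem w0 m0) (hS.D 0 U (le _ u0))) (mul_mem w1 (hS.D 1 U (le _ u0)))
    have : w ψ / ψ = w U * U⁻¹ + ((m 0 : L) * (w (C.z 0) / C.z 0) +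
        (m 1 : L) * (w (C.z 0) / C.z 0 + w (sg C) * (sg C)⁻¹)) := by
      have := C.mon_ne m
      rw [(eq_div_iff this).1 hU |>.symm, Derivation.leibniz, C.der_mon, Fin.sum_univ_two, z1_eq C,
        Derivation.leibniz]
      simp only [smul_eq_mul]
      field_simp
      ring
    rw [this]
    exact add_mem (mul_mem u3 (le _ u1)) (add_mem (mul_mem (intCast_mem O _) w0)
      (mul_mem (intCast_mem O _) (add_mem w0 (mul_mem w1 m2))))

end Pool.Agent.MP_ee8c61_ag.M3BQ
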