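import Pool.Agent.MP_ee8c61_ag.M3BQ.Q

/-! Leading forms at a regular point. -/

namespace Pool.Agent.MP_ee8c61_ag.M3BQ

open M3 M3RESID
open Pool.Agent.MP_96693b_ag.RS (Loc LocOf Chart IsCrd)

variable {L : Type} [Field L] [Algebra ℂ L]

theorem lead_hom {k : ℕ} {p : MvPolynomial (Fin 2) ℂ} (hp : p.IsHomogeneous k) (t : L)
    (z : Fin 2 → L) :
    MvPolynomial.aeval (fun i => t * z i) p = t ^ k * MvPolynomial.aeval z p := by
  rw [p.as_sum, map_sum, map_sum, Finset.mul_sum]
  refine Finset.sum_congr rfl fun m hm => ?_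
  have h : m 0 + m 1 = k := by
    have := hp (MvPolynomial.mem_support_iff.1 hm)
    rw [Finsupp.weight_apply, Finsupp.sum_fintype _ _ (by simp), Fin.sum_univ_two] at this
    simpa using this
  rw [MvPolynomial.aeval_monomial, MvPolynomial.aeval_monomial,
    Finsupp.prod_fintype _ _ (by simp), Finsupp.prod_fintype _ _ (by simp), Fin.prod_univ_two,
    Fin.prod_univ_two, ← h]
  ring

theorem lead_div {R : Loc L} {C : Co L 2} (h : IsCrd R (ch C)) (j : ℕ) :
    ∀ x ∈ R.m ^ j, x / C.z 0 ^ j ∈ R.O ⊔ Algebra.adjoin ℂ {sg C} := by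
  have hO : ∀ x ∈ R.O, x ∈ R.O ⊔ Algebra.adjoin ℂ {sg C} := fun x hx =>
    (le_sup_left : R.O ≤ _) hx
  have h1 : ∀ x ∈ R.m, x / C.z 0 ∈ R.O ⊔ Algebra.adjoin ℂ {sg C} := fun x hx => by
    rw [← h.span] at hx
    induction hx using Submodule.span_induction with
    | mem x hx =>
      obtain ⟨i, rfl⟩ := hx
      fin_cases i
      · exact (div_self (C.ne 0)).symm ▸ one_mem _
      · exact (le_sup_right : Algebra.adjoin ℂ {sg C} ≤ _) (Algebra.subset_adjoin rfl)
    | zero => rw [zero_div]; exact zero_mem _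
    | add x y _ _ hx hy => rw [add_div]; exact add_mem hx hy
    | smul a x _ hx =>
      show (a : L) * x / C.z 0 ∈ _
      rw [mul_div_assoc]
      exact mul_mem (hO _ a.2) hx
  induction j with
  | zero =>
    intro x hx
    rw [pow_zero, Loc.mem_one] at hx
    rw [pow_zero, div_one]
    exact hO x hx
  | succ j ih =>
    intro x hx
    rw [pow_succ] at hx
    refine Submodule.mul_induction_on hx (fun a ha b hb => ?_) fun a b ha hb => ?_
    · rw [pow_succ, ← div_mul_div_comm]
      exact mul_mem (ih a ha) (h1 b hb)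
    · rw [add_div]; exact add_mem ha hb

theorem slead : SLEAD := by
  intro L _ _ R C h g hg h0
  classical
  have ex : ∃ k, g ∉ R.m ^ (k + 1) := by
    by_contra! q
    refine h0 ((Submodule.mem_bot _).1 (Loc.krull (L := R) bot_le fun k => ?_))
    rw [bot_sup_eq]
    cases k with
    | zero => rwa [pow_zero, Loc.mem_one]
    | succ k => exact q k
  have h1 : g ∈ R.m ^ Nat.find ex := by
    rcases e : Nat.find ex with _ | k
    · rwa [pow_zero, Loc.mem_one]
    · exact not_not.1 (Nat.find_min ex (by omega))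
  have h2 := Nat.find_spec ex
  generalize Nat.find ex = k at h1 h2
  obtain ⟨P, hP, h3⟩ := h.crd.LChart_leading k h1
  have e : MvPolynomial.aeval (ch C).x P = C.z 0 ^ k *
      Polynomial.aeval (sg C) (MvPolynomial.aeval ![1, (Polynomial.X : Polynomial ℂ)] P) := by
    rw [MvPolynomial.comp_aeval_apply, ← lead_hom hP]
    congr 2
    funext i
    fin_cases i
    · simp [ch]
    · simp [ch, sg, mul_div_cancel₀ _ (C.ne 0)]
  rw [e] at h3
  generalize MvPolynomial.aeval ![1, (Polynomial.X : Polynomial ℂ)] P = H at h3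
  refine ⟨k, H, h1, h2, fun q => h2 (by simpa [q] using h3), ?_⟩
  have h4 := lead_div h.crd _ _ h3
  have h5 := C.ne 0
  refine Eq.mp (congrArg (· ∈ _) ?_) h4
  field_simp
  ring

end Pool.Agent.MP_ee8c61_ag.M3BQ
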