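import Pool.Agent.MP_ee8c61_ag.M3BQ.Q
import Pool.Agent.MP_ee8c61_ag.M3S.RUFD

/-! Regular points are normal. -/

namespace Pool.Agent.MP_ee8c61_ag.M3BQ

theorem snrm : SNRM := by
  intro L _ _ R C h g hg
  have := (M3S.rowUFD L R (ch C) h.crd).1
  have : IsFractionRing R.O L := IsFractionRing.of_field R.O L fun x => by
    obtain ⟨q, h1, h2, h3⟩ := h.frac x
    exact ⟨⟨_, h3⟩, ⟨q, h1⟩, (eq_div_iff h2).2 rfl⟩
  obtain ⟨y, rfl⟩ := (IsIntegrallyClosed.isIntegral_iff (R := R.O) (K := L)).1 hg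
  exact y.2

end Pool.Agent.MP_ee8c61_ag.M3BQ
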