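import Pool.Agent.MP_ee8c61_ag.M3BQ.Q

/-!
A frame without poles gives exponent one.
-/

namespace Pool.Agent.MP_ee8c61_ag.M3BQ

open M3 M3RESID Finset

theorem sone : SONE := by
  intro L _ _ n C e o a ⟨x, hx⟩ hz hD hδ h
  obtain ⟨θ, h1, h2⟩ := h.eul
  have hθ : Eul o θ := h1
  have x0 : x ≠ 0 := fun h => by simp [h, o.zero] at hx
  have hh : ∀ i, θ (C.z i) / x ∈ o.F 0 := fun i => by
    simpa [hx] using F_div (hθ.zero (hz i)) x
  have e1 : e.δ θ = ∑ i, (θ (C.z i) * e.δ (C.D i) + x * C.D i (θ (C.z i) / x)) + θ x / x := by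
    rw [C.exp_apply θ x, sum_div, ← sum_add_distrib]
    conv_lhs => rw [C.exp θ, map_sum]
    refine sum_congr rfl fun i _ => ?_
    rw [e.smul, Derivation.leibniz_div]
    simp only [smul_eq_mul]
    field_simp
    ring
  have m1 : ∑ i, (θ (C.z i) * e.δ (C.D i) + x * C.D i (θ (C.z i) / x)) ∈ o.F 1 :=
    sum_mem fun i _ => add_mem (F_mul0' (hθ.zero (hz i)) (hδ i))
      (F_mul0' (Or.inr hx.ge) (hD i _ (hh i)))
  have m2 := hθ.dlog x0
  rw [hx] at m2
  refine (sub_eq_zero.1 (cst_F1 (o := o) (F_of_eq (sub_mem h2 (add_mem m1 m2)) ?_))).symm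
  rw [e1, map_sub, map_one]
  push_cast
  ring

end Pool.Agent.MP_ee8c61_ag.M3BQ
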