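import Pool.Agent.MP_ee8c61_ag.M3BQ.Kit

/-! The order of a regular point is the valuation of the exceptional curve. -/

namespace Pool.Agent.MP_ee8c61_ag.M3BQ

open M3 M3RESID
open Pool.Agent.MP_96693b_ag.RS (Loc LocOf Chart IsCrd)
open Pool.Agent.MP_96693b_ag

variable {L : Type} [Field L] [Algebra ℂ L] {R R' : Loc L} {C : Co L 2} {c : ℂ} {o : DV L}
  {y : L}

theorem ord_aeval (hy : y ∈ R'.O) (H : Polynomial ℂ) :
    Polynomial.aeval y H ∈ R'.O ∧ R'.ev (Polynomial.aeval y H) = H.eval (R'.ev y) := by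
  induction H using Polynomial.induction_on' with
  | add p q hp hq =>
    rw [map_add, Polynomial.eval_add, R'.ev_add _ hp.1 _ hq.1, hp.2, hq.2]
    exact ⟨add_mem hp.1 hq.1, rfl⟩
  | monomial n a =>
    rw [Polynomial.aeval_monomial, Polynomial.eval_monomial,
      R'.ev_mul _ (R'.O.algebraMap_mem a) _ (pow_mem hy n), R'.ev_alg, RS.Loc.ev_pow hy]
    exact ⟨mul_mem (R'.O.algebraMap_mem a) (pow_mem hy n), rfl⟩

theorem ord_unit (hle : ∀ g ∈ R'.O, g ∈ o.F 0) (hy : y ∈ R'.O) (h0 : R'.ev y ≠ 0) :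
    y ≠ 0 ∧ o.v y = 0 := by
  have h1 := RS.Loc.ne_zero_of_ev h0
  have h2 := (hle y hy).resolve_left h1
  have h3 := (hle _ (R'.inv_mem y hy h0)).resolve_left (inv_ne_zero h1)
  rw [o.inv] at h3
  exact ⟨h1, by omega⟩

theorem ord_poly (h : IsQ R C c R') (hd : (qt C c).Dat R'.O o 0) {H : Polynomial ℂ}
    (hH : H ≠ 0) : Polynomial.aeval (sg C) H ≠ 0 ∧ o.v (Polynomial.aeval (sg C) H) = 0 := by
  obtain ⟨q, e, hq⟩ := Polynomial.exists_eq_pow_rootMultiplicity_mul_and_not_dvd H hH c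
  have h1 := ord_aeval h.mem q
  rw [h.2] at h1
  have h2 := ord_unit hd.le h1.1 (by
    rw [h1.2]
    exact fun e => hq (Polynomial.dvd_iff_isRoot.2 e))
  have h3 : o.v (sg C - algebraMap ℂ L c) = 0 := hd.adp.vz' (j := 1) (by decide)
  have h4 : sg C - algebraMap ℂ L c ≠ 0 := (qt C c).ne 1
  generalize H.rootMultiplicity c = j at e
  rw [e, map_mul, map_pow, map_sub, Polynomial.aeval_X, Polynomial.aeval_C]
  refine ⟨mul_ne_zero (pow_ne_zero _ h4) h2.1, ?_⟩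
  rw [o.mul _ _ (pow_ne_zero _ h4) h2.1, v_pow o h4, h3, h2.2]
  simp

omit [Algebra ℂ L] in
theorem ord_close {a b : L} (hb : b ≠ 0) (h0 : o.v b = 0) (h : a - b ∈ o.F 1) :
    a ≠ 0 ∧ o.v a = 0 := by
  have h1 : b ∈ o.F 0 := Or.inr h0.ge
  have h2 : a ∈ o.F 0 := by
    have := add_mem (o.F_anti (by omega : (0 : ℤ) ≤ 1) h) h1
    rwa [sub_add_cancel] at this
  have h3 : a ∉ o.F 1 := fun e => by
    have := sub_mem e h
    rw [sub_sub_cancel] at this
    have := this.resolve_left hb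
    omega
  have h4 : a ≠ 0 := fun e => h3 (Or.inl e)
  have h5 := h2.resolve_left h4
  have h6 : ¬(1 : ℤ) ≤ o.v a := fun e => h3 (Or.inr e)
  exact ⟨h4, by omega⟩

theorem ord_core (hl : SLEAD) (hR : Reg R C) (h : IsQ R C c R') (hd : (qt C c).Dat R'.O o 0) :
    IsOrd R o := by
  intro g hg j
  by_cases h0 : g = 0
  · rw [h0]
    exact ⟨fun _ => zero_mem _, fun _ => zero_mem _⟩
  obtain ⟨k, H, h1, h2, hH, h3⟩ := hl L R C hR g hg h0
  have h4 := ord_poly h hd hH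
  have h5 := ord_close h4.1 h4.2 (hd.mul_z (h.1.le h3))
  have h6 : o.v (C.z 0) = 1 := hd.adp.vz
  have h7 := pow_ne_zero k (C.ne 0)
  have h8 : o.v g = k := by
    have := h5.2
    rw [div_eq_mul_inv, o.mul _ _ h0 (inv_ne_zero h7), o.inv, v_pow o (C.ne 0), h6] at this
    omega
  constructor
  · intro e
    have := e.resolve_left h0
    exact RS.Loc.pow_anti RS.Loc.m_le_one (by omega) h1
  · intro e
    refine Or.inr ?_
    by_contra hn
    exact h2 (RS.Loc.pow_anti RS.Loc.m_le_one (by omega) e)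

theorem ofORD : OfORD := by
  intro hex hrg hcd hl
  refine ⟨?_, ?_⟩
  · intro L _ _ R C hR
    obtain ⟨R', h⟩ := hex L R C 0 hR
    obtain ⟨o, hd⟩ := hcd L R' (qt C 0) 0 (hrg L R C 0 R' hR h)
    exact ⟨o, ord_core hl hR h hd⟩
  · intro L _ _ R C o c R' hR ho h
    obtain ⟨o', hd⟩ := hcd L R' (qt C c) 0 (hrg L R C c R' hR h)
    rwa [ho.uniq (ord_core hl hR h hd) hR]

end Pool.Agent.MP_ee8c61_ag.M3BQ
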