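import Pool.Agent.MP_ee8c61_ag.M3BQ.Q
import Pool.Agent.MP_ee8c61_ag.H36.BasicE

/-! Points, punctured lines and the exceptional curve as constructible sets. -/

namespace Pool.Agent.MP_ee8c61_ag.M3BQ

open M3 M3RESID Set MvPolynomial
open Pool.Agent.MP_96693b_ag.RS (Loc LocOf)

variable {L : Type} [Field L] [Algebra ℂ L]

theorem pt_gen {B : Subalgebra ℂ L} (h : B.FG) :
    ∃ (κ : Type) (_ : Finite κ) (y : κ → L), Algebra.adjoin ℂ (range y) = B := by
  obtain ⟨t, ht, e⟩ := Subalgebra.fg_def.1 h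
  exact ⟨t, ht, Subtype.val, by rw [Subtype.range_coe, e]⟩

theorem pt_ev {κ : Type} {y : κ → L} {P P' : Loc L} (h : Algebra.adjoin ℂ (range y) ≤ P.O)
    (h' : Algebra.adjoin ℂ (range y) ≤ P'.O) (e : ∀ k, P.ev (y k) = P'.ev (y k)) :
    ∀ g ∈ Algebra.adjoin ℂ (range y), P.ev g = P'.ev g := by
  intro g hg
  induction hg using Algebra.adjoin_induction with
  | mem x hx =>
    obtain ⟨k, rfl⟩ := hx
    exact e k
  | algebraMap r => rw [P.ev_alg, P'.ev_alg]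
  | add a b ha hb ia ib => rw [P.ev_add _ (h ha) _ (h hb), P'.ev_add _ (h' ha) _ (h' hb), ia, ib]
  | mul a b ha hb ia ib => rw [P.ev_mul _ (h ha) _ (h hb), P'.ev_mul _ (h' ha) _ (h' hb), ia, ib]

theorem pt_con {κ : Type} (k : κ) (c : ℂ) : H36.Con {x : κ → ℂ | x k = c} :=
  (H36.Con.zero (X k - C c)).of_iff fun x => by simp [sub_eq_zero]

theorem pt_conT {κ : Type} (k : κ) (T : Finset ℂ) : H36.Con {x : κ → ℂ | x k ∈ T} :=
  (H36.Con.ex fun c : T => pt_con k c).of_iff fun x => by simp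

theorem pt_line {χ : H36.Chi} (H : IsEu χ) (T : Finset ℂ) :
    χ _ {x : Option (Fin 0) → ℂ | x none ∉ T} = 1 - T.card := by
  have h1 : χ (Option (Fin 0)) univ = 1 := (H.1.line _ _ H36.Con.univ).trans H.2
  have h2 : ∀ c : ℂ, χ (Option (Fin 0)) (univ ∩ {x | x none = c}) = 1 := fun c =>
    (H.1.bijOn H36.Con.univ (fun _ => C c) ⟨fun x _ => by simp, fun _ _ _ _ _ =>
      Subsingleton.elim _ _, fun x hx => ⟨0, trivial, funext
        (Option.rec (by simpa using hx.2.symm) fun i => i.elim0)⟩⟩).trans H.2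
  have h3 := H.1.split H36.Con.univ (pt_conT (none : Option (Fin 0)) T)
  rw [h1, H.1.fiber (fun x => x none) T fun c _ => H36.Con.univ.inter (pt_con none c)] at h3
  simp only [h2, Finset.sum_const, nsmul_eq_mul, mul_one, ← compl_eq_univ_sdiff] at h3
  exact eq_sub_of_add_eq' h3.symm

theorem slin : SLIN := by
  intro L _ _ χ H hχ W y T c hy b
  rw [hχ.crd W (Option (Fin 0)) (fun _ => y) c (fun P hP _ => hy P hP)
    fun P hP P' hP' e => b.injOn hP hP' (congrFun e none), ← pt_line H T]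
  refine congrArg _ (Set.ext fun x => ⟨?_, fun hx => ?_⟩)
  · rintro ⟨P, hP, rfl⟩
    exact b.mapsTo hP
  · obtain ⟨P, hP, e⟩ := b.surjOn hx
    exact ⟨P, hP, funext (Option.rec e fun i => i.elim0)⟩

theorem sexl : SEXL := by
  intro L _ _ _ R C T h
  obtain ⟨B, hB, hR⟩ := h
  obtain ⟨κ, _, y, rfl⟩ := pt_gen hB
  let y' : Option κ → L := fun o => o.elim (sg C) y
  have l1 : Algebra.adjoin ℂ (range y) ≤ Algebra.adjoin ℂ (range y') :=
    Algebra.adjoin_mono (range_subset_iff.2 fun k => ⟨some k, rfl⟩)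
  have l2 : sg C ∈ Algebra.adjoin ℂ (range y') := Algebra.subset_adjoin ⟨none, rfl⟩
  have l3 : ∀ k, y k ∈ R.O := fun k => hR.le (Algebra.subset_adjoin ⟨k, rfl⟩)
  have l4 : Algebra.adjoin ℂ (range y') ≤ R.O ⊔ Algebra.adjoin ℂ {sg C} :=
    Algebra.adjoin_le (range_subset_iff.2 (Option.rec
      ((le_sup_right : _ ≤ R.O ⊔ _) (Algebra.subset_adjoin rfl))
      fun k => (le_sup_left : _ ≤ R.O ⊔ _) (l3 k)))
  let A : Subalgebra ℂ L :=
    { carrier := {p | ∃ s ∈ Algebra.adjoin ℂ (range y), R.ev s ≠ 0 ∧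
        p * s ∈ Algebra.adjoin ℂ (range y')}
      mul_mem' := fun ⟨s, a, b, c⟩ ⟨s', a', b', c'⟩ => ⟨s * s', mul_mem a a', by
        rw [R.ev_mul _ (hR.le a) _ (hR.le a')]; exact mul_ne_zero b b', by
        rw [mul_mul_mul_comm]; exact mul_mem c c'⟩
      add_mem' := fun {p p'} ⟨s, a, b, c⟩ ⟨s', a', b', c'⟩ => ⟨s * s', mul_mem a a', by
        rw [R.ev_mul _ (hR.le a) _ (hR.le a')]; exact mul_ne_zero b b', by
        rw [show (p + p') * (s * s') = p * s * s' + p' * s' * s by ring]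
        exact add_mem (mul_mem c (l1 a')) (mul_mem c' (l1 a))⟩
      algebraMap_mem' := fun r => ⟨1, one_mem _, by rw [Loc.ev_one]; exact one_ne_zero, by
        rw [mul_one]; exact Subalgebra.algebraMap_mem _ r⟩ }
  have l5 : R.O ⊔ Algebra.adjoin ℂ {sg C} ≤ A := sup_le
    (fun g hg => let ⟨p, a, q, b, c, e⟩ := hR.frac g hg; ⟨q, b, c, e ▸ l1 a⟩)
    (Algebra.adjoin_le (singleton_subset_iff.2
      ⟨1, one_mem _, by rw [Loc.ev_one]; exact one_ne_zero, by rwa [mul_one]⟩))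
  have e : Af y' ∩ vl y' ⁻¹' ({x | ∀ k, x (some k) = R.ev (y k)} \ {x | x none ∈ T}) =
      {S | ∃ c ∉ T, IsQ R C c S} := by
    ext S
    constructor
    · rintro ⟨h1, h2, h3⟩
      have h4 : R.O ≤ S.O := hR.le_of_ev (l1.trans h1.le) (pt_ev (l1.trans h1.le) hR.le h2)
      exact ⟨_, h3, h1.of_le l4 (sup_le h4 (Algebra.adjoin_le
        (singleton_subset_iff.2 (h1.le l2)))), rfl⟩
    · rintro ⟨c, hc, h1, rfl⟩
      have h4 : R.O ≤ S.O := le_sup_left.trans h1.le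
      refine ⟨⟨l4.trans h1.le, fun f hf => ?_⟩, fun k => Loc.ev_eq_of_le h4 (l3 k), hc⟩
      obtain ⟨p, a, q, b, c, e⟩ := h1.frac f hf
      obtain ⟨s, s1, s2, s3⟩ := l5 a
      obtain ⟨t, t1, t2, t3⟩ := l5 b
      refine ⟨p * s * t, mul_mem s3 (l1 t1), q * t * s, mul_mem t3 (l1 s1), ?_, by
        rw [← e]; ring⟩
      rw [S.ev_mul _ (mul_mem (h1.le b) (h4 (hR.le t1))) _ (h4 (hR.le s1)),
        S.ev_mul _ (h1.le b) _ (h4 (hR.le t1)), Loc.ev_eq_of_le h4 (hR.le t1),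
        Loc.ev_eq_of_le h4 (hR.le s1)]
      exact mul_ne_zero (mul_ne_zero c t2) s2
  exact e ▸ ConP.pc _ y' _ ((H36.Con.all fun k => pt_con (some k) _).diff (pt_conT none T))

end Pool.Agent.MP_ee8c61_ag.M3BQ
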