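import Pool.Agent.MP_ee8c61_ag.M3BQ.Q

/-!
The volume form and monomials under quadratic transforms.
-/

namespace Pool.Agent.MP_ee8c61_ag.M3BQ

open M3 M3RESID
open Pool.Agent.MP_96693b_ag.RS (Loc LocOf Chart IsCrd)

variable {L : Type} [Field L] [Algebra ℂ L]

theorem qad_sw {R : Loc L} {C : Co L 2} (h : Reg R C) : Reg R (sw C) := by
  refine ⟨⟨?_, fun i => ?_, (sw C).dual⟩, h.frac⟩
  · rw [← h.crd.span]
    congr 1
    ext x
    simp only [ch, sw, Set.mem_range, Fin.exists_fin_two, Matrix.cons_val_zero,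
      Matrix.cons_val_one]
    exact or_comm
  · fin_cases i
    · exact h.crd.pres 1
    · exact h.crd.pres 0

theorem qad_z {R : Loc L} {C : Co L 2} (h : Reg R C) (i : Fin 2) : C.z i ∈ R.O := by
  have : C.z i ∈ R.m := h.crd.span ▸ Submodule.subset_span ⟨i, rfl⟩
  exact this.1

theorem qad_mem {R : Loc L} {g : L} (h : R.ev g ≠ 0) : g ∈ R.O :=
  by_contra fun hn => h (R.ev_out g hn)

theorem qad_ev {R R' : Loc L} (h : R.O ≤ R'.O) {g : L} (hg : R.ev g ≠ 0) : R'.ev g ≠ 0 := by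
  intro h0
  have m := qad_mem hg
  have e := R'.ev_mul g (h m) _ (h (R.inv_mem g m hg))
  rw [mul_inv_cancel₀ (Loc.ne_zero_of_ev hg), Loc.ev_one, h0, zero_mul] at e
  exact one_ne_zero e

theorem qad_mul {R : Loc L} {g h : L} (hg : R.ev g ≠ 0) (hh : R.ev h ≠ 0) :
    R.ev (g * h) ≠ 0 := by
  rw [R.ev_mul g (qad_mem hg) h (qad_mem hh)]
  exact mul_ne_zero hg hh

theorem qad_zpow {R : Loc L} {g : L} (hg : R.ev g ≠ 0) (n : ℤ) : R.ev (g ^ n) ≠ 0 := by
  have p : ∀ k : ℕ, R.ev (g ^ k) ≠ 0 := fun k => by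
    rw [Loc.ev_pow (qad_mem hg)]
    exact pow_ne_zero _ hg
  obtain ⟨k, rfl | rfl⟩ := Int.eq_nat_or_neg n
  · rw [zpow_natCast]; exact p k
  · rw [zpow_neg, zpow_natCast, Loc.ev_inv (qad_mem (p k)) (p k)]
    exact inv_ne_zero (p k)

theorem qad_sg (C : Co L 2) : C.z 1 = C.z 0 * sg C := by rw [sg, mul_div_cancel₀ _ (C.ne 0)]

theorem qad_sg_ne (C : Co L 2) : sg C ≠ 0 := div_ne_zero (C.ne 1) (C.ne 0)

theorem qad_th0 (C : Co L 2) (c : ℂ) : (qt C c).th 0 = C.th 0 + C.th 1 := by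
  show C.z 0 • (C.D 0 + sg C • C.D 1) = C.z 0 • C.D 0 + C.z 1 • C.D 1
  rw [smul_add, smul_smul, ← qad_sg]

theorem qad_th1 (e : Dv L) (C : Co L 2) (c : ℂ) :
    e.δ ((qt C c).th 1) = (sg C - algebraMap ℂ L c) * e.δ (C.z 0 • C.D 1) + 1 := by
  show e.δ ((sg C - algebraMap ℂ L c) • C.z 0 • C.D 1) = _
  rw [e.smul, map_sub, Derivation.map_algebraMap, sub_zero, Derivation.smul_apply, smul_eq_mul,
    D1_sg]

theorem qad_th1' (e : Dv L) (C : Co L 2) : e.δ (C.th 1) = sg C * e.δ (C.z 0 • C.D 1) + 1 := by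
  have h : C.th 1 = sg C • C.z 0 • C.D 1 := by rw [smul_smul, mul_comm, ← qad_sg]; rfl
  rw [h, e.smul, Derivation.smul_apply, smul_eq_mul, D1_sg]

theorem ofQAD : OfQAD := by
  intro hRG L _ _ e ψ R C a m h
  refine ⟨⟨qad_sw h.reg, fun i => ?_, ?_⟩, fun c R' hq => ⟨hRG L R C c R' h.reg hq, fun i => ?_, ?_⟩⟩
  · fin_cases i
    · exact h.ad 1
    · exact h.ad 0
  · have : (sw C).mon (sv m) = C.mon m := by
      simp only [Co.mon, Fin.prod_univ_two]
      exact mul_comm _ _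
    unfold Mn
    rw [this]
    exact h.mn
  all_goals
    have le : R.O ≤ R'.O := le_sup_left.trans hq.1.le
    have sm : sg C ∈ R'.O := hq.1.le (le_sup_right (a := R.O) (Algebra.subset_adjoin rfl))
    have s0 := C.ne 0
    have s1 := qad_sg_ne C
  · have h0 := le (h.ad 0)
    have h1 := le (h.ad 1)
    fin_cases i
    · show (e.δ ((qt C c).th 0) - algebraMap ℂ L (a 0 + a 1)) / C.z 0 ∈ R'.O
      have : (e.δ ((qt C c).th 0) - algebraMap ℂ L (a 0 + a 1)) / C.z 0 =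
          (e.δ (C.th 0) - algebraMap ℂ L (a 0)) / C.z 0 +
            sg C * ((e.δ (C.th 1) - algebraMap ℂ L (a 1)) / C.z 1) := by
        rw [qad_th0, map_add, map_add, qad_sg C]
        field_simp
        ring
      rw [this]
      exact add_mem h0 (mul_mem sm h1)
    · show (e.δ ((qt C c).th 1) - algebraMap ℂ L (qv 1 c a 1)) / (sg C - algebraMap ℂ L c) ∈ R'.O
      by_cases hc : c = 0
      · have : (e.δ ((qt C c).th 1) - algebraMap ℂ L (qv 1 c a 1)) / (sg C - algebraMap ℂ L c) =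
            C.z 0 * ((e.δ (C.th 1) - algebraMap ℂ L (a 1)) / C.z 1) := by
          have q : qv 1 c a 1 = a 1 := if_pos hc
          rw [q, qad_th1, qad_th1', hc, map_zero, sub_zero, qad_sg C]
          field_simp
        rw [this]
        exact mul_mem (le (qad_z h.reg 0)) h1
      · have s2 : sg C - algebraMap ℂ L c ≠ 0 := (qt C c).ne 1
        have : (e.δ ((qt C c).th 1) - algebraMap ℂ L (qv 1 c a 1)) / (sg C - algebraMap ℂ L c) =
            C.z 0 * ((e.δ (C.th 1) - algebraMap ℂ L (a 1)) / C.z 1) +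
              (algebraMap ℂ L (a 1) - 1) * (sg C)⁻¹ := by
          have q : qv 1 c a 1 = 1 := if_neg hc
          rw [q, qad_th1, qad_th1', map_one, qad_sg C]
          field_simp
          ring
        rw [this]
        exact add_mem (mul_mem (le (qad_z h.reg 0)) h1) (mul_mem
          (sub_mem (R'.O.algebraMap_mem _) (one_mem _)) (R'.inv_mem _ sm (hq.2 ▸ hc)))
  · have u := qad_ev le h.mn
    have e1 : (qt C c).mon (qv 0 c m) =
        C.z 0 ^ (m 0 + m 1) * (sg C - algebraMap ℂ L c) ^ qv 0 c m 1 := Fin.prod_univ_two _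
    have e2 : C.mon m = C.z 0 ^ (m 0 + m 1) * sg C ^ m 1 := by
      rw [Co.mon, Fin.prod_univ_two, qad_sg C, mul_zpow, zpow_add₀ s0, mul_assoc]
    unfold Mn
    rw [e1]
    by_cases hc : c = 0
    · have q : qv 0 c m 1 = m 1 := if_pos hc
      rwa [q, hc, map_zero, sub_zero, ← e2]
    · have q : qv 0 c m 1 = 0 := if_neg hc
      have : ψ / C.z 0 ^ (m 0 + m 1) = ψ / C.mon m * sg C ^ m 1 := by
        have := zpow_ne_zero (m 1) s1
        rw [e2]
        field_simp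
      rw [q, zpow_zero, mul_one, this]
      exact qad_mul u (qad_zpow (hq.2 ▸ hc) _)

end Pool.Agent.MP_ee8c61_ag.M3BQ
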