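import Pool.Agent.MP_ee8c61_ag.M3BQ.Q

/-!
Quadratic transforms of regular points are regular.
-/

namespace Pool.Agent.MP_ee8c61_ag.M3BQ

open M3 M3RESID
open Pool.Agent.MP_96693b_ag.RS

noncomputable section

variable {L : Type} [Field L] [Algebra ℂ L]

/-- The fractions with denominators that do not vanish at `P`. -/
def qrg_fr (B : Subalgebra ℂ L) (P : Loc L) (hB : B ≤ P.O) : Subalgebra ℂ L where
  carrier := {p | ∃ q ∈ B, P.ev q ≠ 0 ∧ p * q ∈ B}
  mul_mem' := by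
    rintro p p' ⟨q, h1, h2, h3⟩ ⟨q', h1', h2', h3'⟩
    refine ⟨q * q', mul_mem h1 h1', ?_, ?_⟩
    · rw [P.ev_mul _ (hB h1) _ (hB h1')]
      exact mul_ne_zero h2 h2'
    · rw [mul_mul_mul_comm]
      exact mul_mem h3 h3'
  add_mem' := by
    rintro p p' ⟨q, h1, h2, h3⟩ ⟨q', h1', h2', h3'⟩
    refine ⟨q * q', mul_mem h1 h1', ?_, ?_⟩
    · rw [P.ev_mul _ (hB h1) _ (hB h1')]
      exact mul_ne_zero h2 h2'
    · rw [show (p + p') * (q * q') = p * q * q' + p' * q' * q by ring]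
      exact add_mem (mul_mem h3 h1') (mul_mem h3' h1)
  algebraMap_mem' r := ⟨1, one_mem _, by rw [Loc.ev_one]; exact one_ne_zero, by
    rw [mul_one]; exact B.algebraMap_mem r⟩

/-- Transitivity of localization. -/
theorem qrg_locOf {B A : Subalgebra ℂ L} {P : Loc L} (hB : B ≤ P.O) (h : LocOf A P)
    (hA : A ≤ qrg_fr B P hB) : LocOf B P := by
  refine ⟨hB, fun f hf => ?_⟩
  obtain ⟨p, hp, q, hq, h0, e⟩ := h.frac f hf
  obtain ⟨s, s1, s2, s3⟩ := hA hp
  obtain ⟨t, t1, t2, t3⟩ := hA hq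
  refine ⟨p * s * t, mul_mem s3 t1, q * t * s, mul_mem t3 s1, ?_, by rw [← e]; ring⟩
  rw [P.ev_mul _ (hB t3) _ (hB s1), P.ev_mul _ (h.le hq) _ (hB t1)]
  exact mul_ne_zero (mul_ne_zero h0 t2) s2

theorem qrg_bl {R R' : Loc L} {C : Co L 2} {c : ℂ} (h : Reg R C) (hq : IsQ R C c R') :
    BlLoc R R' (ch C) Finset.univ 0 := by
  have hle : R.O ≤ R'.O := le_sup_left.trans hq.1.le
  have hs : sg C ∈ R'.O :=
    hq.1.le (le_sup_right (a := R.O) (Algebra.self_mem_adjoin_singleton ℂ _))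
  have hA : R.O ⊔ Algebra.adjoin ℂ {sg C} ≤ Algebra.adjoin ℂ
      ((R.O : Set L) ∪ (fun j => (ch C).x j / (ch C).x 0) '' (Finset.univ : Finset (Fin 2))) := by
    refine sup_le (fun g hg => Algebra.subset_adjoin (Or.inl hg)) (Algebra.adjoin_mono ?_)
    rintro _ rfl
    exact Or.inr ⟨1, by simp, rfl⟩
  refine ⟨h.crd, hle, fun f hf => Loc.ev_eq_of_le hle hf, Finset.mem_univ _, fun j _ => ?_,
    fun f hf => ?_⟩
  · fin_cases j
    · change C.z 0 / C.z 0 ∈ _
      rw [div_self (C.ne 0)]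
      exact one_mem _
    · exact hs
  · obtain ⟨p, hp, q, hq', h0, e⟩ := hq.1.frac f hf
    exact ⟨p, hA hp, q, hA hq', h0, e⟩

theorem qrg_ch {R' : Loc L} {C : Co L 2} {c : ℂ} (hc : R'.ev (sg C) = c) :
    (ch C).bl R' Finset.univ 0 = ch (qt C c) := by
  have h0 := C.ne 0
  unfold Chart.bl
  change _ = Chart.mk _ _
  congr 1
  · funext j
    fin_cases j
    · simp [ch, qt]
    · simp only [ch, qt, ← hc]
      simp [sg]
  · funext j
    fin_cases j
    · ext g
      simp only [Fin.zero_eta, if_true, Derivation.smul_apply, lbl_eu_apply, Fin.sum_univ_two,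
        smul_eq_mul]
      simp only [ch, qt, sg, Matrix.cons_val_zero, Derivation.add_apply, Derivation.smul_apply,
        smul_eq_mul]
      field_simp
    · simp [ch, qt]

theorem sqrg : SQRG := by
  intro L _ _ R C c R' h hq
  have hle : R.O ≤ R'.O := le_sup_left.trans hq.1.le
  refine ⟨?_, fun g => ?_⟩
  · rw [← qrg_ch hq.2]
    exact (qrg_bl h hq).crd'
  · obtain ⟨q, h1, h2, h3⟩ := h.frac g
    exact ⟨q, hle h1, h2, hle h3⟩

end

end Pool.Agent.MP_ee8c61_ag.M3BQ
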