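import Pool.Agent.MP_ee8c61_ag.M3BQ.Kit

/-!
The residue field of the order of a regular point is the field of rational functions in the slope.
-/

namespace Pool.Agent.MP_ee8c61_ag.M3BQ

open M3 M3RESID Polynomial
open Pool.Agent.MP_96693b_ag.RS (Loc LocOf Chart IsCrd)

variable {L k : Type} [Field L] [Algebra ℂ L] [Field k] [Algebra ℂ k]

theorem rat_aeval (P : Pl L k) {s : L} (hs : s ∈ P.o.F 0) (H : ℂ[X]) :
    aeval s H ∈ P.o.F 0 ∧ P.π (aeval s H) = aeval (P.π s) H := by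
  induction H using Polynomial.induction_on with
  | C a => rw [aeval_C, aeval_C]; exact P.cst a
  | add p q hp hq =>
    rw [map_add, map_add, P.add _ hp.1 _ hq.1, hp.2, hq.2]
    exact ⟨add_mem hp.1 hq.1, rfl⟩
  | monomial n a h =>
    rw [pow_succ, ← mul_assoc, map_mul, map_mul (aeval (P.π s)), aeval_X, aeval_X,
      P.mul _ h.1 _ hs, h.2]
    exact ⟨F_mul0 h.1 hs, rfl⟩

theorem rat_tr {t : k} (h : ∀ c : ℂ, t ≠ algebraMap ℂ k c) : Transcendental ℂ t := fun ha => by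
  obtain ⟨c, hc⟩ := minpoly.mem_range_of_degree_eq_one ℂ t
    (IsAlgClosed.degree_eq_one_of_irreducible ℂ (minpoly.irreducible ha.isIntegral))
  exact h c hc.symm

theorem ofRAT : OfRAT := by
  intro hQ hL hE L _ _ k _ _ P R C hR hO
  have hD : ∀ c, ∃ R', IsQ R C c R' ∧ (qt C c).Dat R'.O P.o 0 := fun c => by
    obtain ⟨R', h⟩ := hQ L R C c hR
    exact ⟨R', h, hE L R C P.o c R' hR hO h⟩
  obtain ⟨R₀, h₀, d₀⟩ := hD 0
  have hB : ∀ g ∈ R.O ⊔ Algebra.adjoin ℂ {sg C}, g ∈ P.o.F 0 := fun g hg => d₀.le g (h₀.1.le hg)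
  have hs : sg C ∈ P.o.F 0 := hB _ (sg_mem_sup R C)
  have hz := hO.v_z hR 0
  have key : ∀ g ∈ R.O, g ≠ 0 → ∃ (n : ℕ) (H : ℂ[X]), P.o.v g = n ∧
      P.π (g / C.z 0 ^ n) = aeval (P.π (sg C)) H := fun g hg h0 => by
    obtain ⟨n, H, h1, h2, -, h4⟩ := hL L R C hR g hg h0
    refine ⟨n, H, hO.v_eq hg h1 h2, ?_⟩
    rw [← (rat_aeval P hs H).2]
    refine P.π_congr (rat_aeval P hs H).1 ?_
    have h5 := F_mul0 (hB _ h4) (hz ▸ P.o.mem_F_self (C.z 0))
    rwa [div_mul_cancel₀ _ (C.ne 0)] at h5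
  refine ⟨rat_tr fun c e => ?_, eq_top_iff.2 fun y _ => ?_⟩
  · obtain ⟨R', -, d⟩ := hD c
    have h1 := P.π_ne ((qt C c).ne 1) (by simpa using d.adp.v 1)
    rw [qt_z1, P.π_sub hs (P.cst c).1, P.π_cst, e, sub_self] at h1
    exact h1 rfl
  · obtain ⟨g, hg, rfl⟩ := P.surj y
    by_cases h1 : g ∈ P.o.F 1
    · rw [P.π_F1 h1]
      exact zero_mem _
    have g0 : g ≠ 0 := fun e => h1 (Or.inl e)
    have vg : P.o.v g = 0 := by
      have a := hg.resolve_left g0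
      have b : ¬1 ≤ P.o.v g := fun e => h1 (Or.inr e)
      omega
    obtain ⟨q, hq, q0, hp⟩ := hR.frac g
    obtain ⟨n, H, e1, e2⟩ := key _ hp (mul_ne_zero g0 q0)
    obtain ⟨n', H', e3, e4⟩ := key _ hq q0
    rw [P.o.mul _ _ g0 q0, vg, zero_add, e3] at e1
    obtain rfl : n' = n := Int.natCast_inj.1 e1
    have z0 := pow_ne_zero n' (C.ne 0)
    have vu : P.o.v (q / C.z 0 ^ n') = 0 := by
      rw [div_eq_mul_inv, P.o.mul _ _ q0 (inv_ne_zero z0), P.o.inv, v_pow _ (C.ne 0), hz, e3]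
      ring
    have e5 : g = g * q / C.z 0 ^ n' / (q / C.z 0 ^ n') := by
      rw [mul_div_assoc, mul_div_cancel_right₀ _ (div_ne_zero q0 z0)]
    have e6 : g * q / C.z 0 ^ n' ∈ P.o.F 0 := by
      rw [mul_div_assoc]
      exact F_mul0 hg (Or.inr vu.ge)
    rw [e5, P.π_div e6 (div_ne_zero q0 z0) vu, e2, e4]
    exact (IntermediateField.mem_adjoin_simple_iff _ _).2 ⟨H, H', rfl⟩

end Pool.Agent.MP_ee8c61_ag.M3BQ
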