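import Pool.Agent.MP_ee8c61_ag.M3BQ.Q
import Pool.Agent.MP_ee8c61_ag.M3E.Kit

/-! A valuation that dominates a regular point and no quadratic transform is the order. -/

namespace Pool.Agent.MP_ee8c61_ag.M3BQ

open M3 M3RESID

variable {L : Type} [Field L] [Algebra ℂ L]

theorem tri_aeval {V : ValuationSubring L} {τ : L} (h : ∀ c : ℂ, Un V (τ - algebraMap ℂ L c))
    (hc : ∀ c : ℂ, algebraMap ℂ L c ∈ V) (H : Polynomial ℂ) (hH : H ≠ 0) :
    Un V (Polynomial.aeval τ H) := by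
  rw [(IsAlgClosed.splits H).eq_prod_roots, map_mul, map_multiset_prod, Polynomial.aeval_C]
  refine Un.mul ⟨(map_ne_zero _).2 (Polynomial.leadingCoeff_ne_zero.2 hH), hc _, by
    rw [← map_inv₀]; exact hc _⟩ (Multiset.prod_induction _ _ (fun _ _ => Un.mul) un_one ?_)
  intro x hx
  simp only [Multiset.map_map, Multiset.mem_map] at hx
  obtain ⟨a, -, rfl⟩ := hx
  simpa using h a

theorem ofTRI : OfTRI := by
  intro hL L _ _ R C o V hR ho hV hs hu
  have hc : ∀ c : ℂ, algebraMap ℂ L c ∈ V := fun c => (hV _ (R.O.algebraMap_mem c)).1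
  have h0 : C.z 0 ∈ R.m := hR.crd.span ▸ Submodule.subset_span ⟨0, rfl⟩
  have z1 : C.z 0 ∈ V := (hV _ h0.1).1
  have z2 : ¬Un V (C.z 0) := (hV _ h0.1).2 h0.2
  have key : ∀ g ∈ R.O, g ≠ 0 → Un V (g / C.z 0 ^ o.v g) := fun g hg g0 => by
    obtain ⟨k, H, h1, h2, h3, h4⟩ := hL L R C hR g hg g0
    have a := ((ho g hg k).2 h1).resolve_left g0
    have b : ¬((k + 1 : ℕ) : ℤ) ≤ o.v g := fun e => h2 ((ho g hg (k + 1)).1 (Or.inr e))
    have e : o.v g = k := by push_cast at b; omega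
    have h5 := sup_mem (V := V) (fun x hx => (hV x hx).1) (fun x hx =>
      (Algebra.adjoin_le (S := VA V hc) (by simpa [mem_VA] using hs)) hx) h4
    have h6 := (tri_aeval hu hc H h3).add (mul_mem h5 z1) (not_un_mul h5 z1 z2)
    rw [div_mul_cancel₀ _ (C.ne 0), add_sub_cancel] at h6
    rwa [e, zpow_natCast]
  ext y
  by_cases y0 : y = 0
  · simp [y0]
  obtain ⟨q, hq, q0, hp⟩ := hR.frac y
  have h1 := (key _ hp (mul_ne_zero y0 q0)).div (key q hq q0)
  have e : y * q / C.z 0 ^ o.v (y * q) / (q / C.z 0 ^ o.v q) = y / C.z 0 ^ o.v y := by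
    have := C.ne 0
    rw [o.mul y q y0 q0, zpow_add₀ this]
    field_simp
  rw [e] at h1
  have h2 : y ∈ V ↔ C.z 0 ^ o.v y ∈ V := by
    rw [← h1.mem_iff (g := C.z 0 ^ o.v y), mul_div_cancel₀ _ (zpow_ne_zero _ (C.ne 0))]
  rw [h2, zpow_mem_iff (C.ne 0) z1 z2, o.mem_O, o.mem_F]
  simp [y0]

end Pool.Agent.MP_ee8c61_ag.M3BQ
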