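import Pool.Agent.MP_ee8c61_ag.M3BQ.Q

/-!
The type of a rational curve of exponent zero in adapted coordinates.
-/

namespace Pool.Agent.MP_ee8c61_ag.M3BQ

open M3 M3RESID Polynomial

section

variable {k : Type} [Field k] [Algebra ℂ k] {y : k}

theorem ty0_rep (h : Rat y) (g : k) : ∃ p q : ℂ[X], g = aeval y p / aeval y q :=
  (IntermediateField.mem_adjoin_simple_iff ℂ g).1 (h.2 ▸ IntermediateField.mem_top)

theorem ty0_der (h : Rat y) {w : VF k} (hw : w y = 0) : w = 0 := by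
  ext g
  obtain ⟨p, q, rfl⟩ := ty0_rep h g
  simp [Derivation.leibniz_div, Derivation.map_aeval, hw]

theorem ty0_coeff (p : ℂ[X]) (n : ℕ) : (X * derivative p).coeff n = n * p.coeff n := by
  cases n with
  | zero => simp
  | succ n => rw [coeff_X_mul, coeff_derivative, mul_comm, Nat.cast_succ]

theorem ty0_deg (p : ℂ[X]) : (X * derivative p).natDegree ≤ p.natDegree :=
  natDegree_le_iff_coeff_eq_zero.2 fun n hn => by
    rw [ty0_coeff, coeff_eq_zero_of_natDegree_lt hn, mul_zero]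

theorem ty0_int (h : Rat y) {θ : VF k} (hθ : θ y = y) {w : k} (h0 : w ≠ 0) {c : ℂ}
    (hw : θ w = algebraMap ℂ k c * w) : ∃ m : ℤ, c = m := by
  obtain ⟨p, q, rfl⟩ := ty0_rep h w
  obtain ⟨p0, q0⟩ := div_ne_zero_iff.1 h0
  have e : q * (X * derivative p) = p * (X * derivative q) + C c * (p * q) := by
    apply transcendental_iff_injective.1 h.1
    simp only [Derivation.leibniz_div, Derivation.map_aeval, hθ, smul_eq_mul] at hw
    simp only [map_mul, map_add, aeval_X, aeval_C]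
    field_simp at hw
    linear_combination hw
  have p1 : p.coeff p.natDegree ≠ 0 := mt leadingCoeff_eq_zero.1 fun z => p0 (by simp [z])
  have q1 : q.coeff q.natDegree ≠ 0 := mt leadingCoeff_eq_zero.1 fun z => q0 (by simp [z])
  have := congrArg (coeff · (p.natDegree + q.natDegree)) e
  simp only [coeff_add, coeff_C_mul] at this
  rw [coeff_mul_add_eq_of_natDegree_le le_rfl (ty0_deg q),
    coeff_mul_add_eq_of_natDegree_le le_rfl le_rfl, add_comm p.natDegree,
    coeff_mul_add_eq_of_natDegree_le le_rfl (ty0_deg p), ty0_coeff, ty0_coeff] at this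
  refine ⟨p.natDegree - q.natDegree, mul_right_cancel₀ (mul_ne_zero p1 q1) ?_⟩
  push_cast
  linear_combination -this

end

theorem sty0 : STY0 := by
  intro L _ _ k _ _ P C e v v' b μ e₁ v₁ hA hR hE hμ hb hv hu hI hD hs
  obtain ⟨C₁, hC⟩ := Pl.exists_RsC (P := P) hA fun w hw => ty0_der hR (hw 0)
  have hy : Rat (C₁.z 0) := hC 0 ▸ hR
  have ht : P.Rs (C.th 1) (C₁.th 0) := hC.th hA 0
  have h1 : e₁.δ (C₁.th 0) = algebraMap ℂ k μ := by
    rw [← hD _ _ ht, Pl.π_congr (cst_F _ μ) hμ, P.π_cst]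
  have h2 : e₁.δ v₁ = algebraMap ℂ k b := by rw [hs.δ hD, hv, P.π_cst]
  rcases hI with ⟨α, hα⟩ | ⟨n, hn⟩
  · have e1 : v' = algebraMap ℂ L (α 0) • C.th 0 + algebraMap ℂ L (α 1) • C.th 1 :=
      sub_eq_zero.1 (C.span _ fun i => by fin_cases i <;> simp [hα, C.th_z, Algebra.smul_def])
    have e2 := ((Pl.Rs_eul (P := P) hA.eul).smul (cst_F _ (α 0))).add (ht.smul (cst_F _ (α 1)))
    rw [← e1, smul_zero, zero_add, P.π_cst] at e2
    have e3 := sub_eq_zero.1 (Ex_one C₁ e₁ (Pl.Res.uniq hC hA hE hD (hs.congr hu)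
      ⟨0, zero_mem _, by rwa [sub_zero]⟩))
    rw [e3, e₁.smul, h1, Derivation.map_algebraMap, add_zero, ← map_mul] at h2
    have e4 := (algebraMap ℂ k).injective h2
    have m0 : μ ≠ 0 := fun z => hb (by rw [← e4, z, mul_zero])
    exact ⟨C₁, μ, hy, m0, h1, .inr (by rw [e3, ← e4, mul_div_cancel_right₀ _ m0])⟩
  · have hn : n 1 * μ = 1 := by simpa using hn
    have m0 : μ ≠ 0 := right_ne_zero_of_mul_eq_one hn
    have tz : C₁.th 0 (C₁.z 0) = C₁.z 0 := by simp [C₁.th_z]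
    have e1 : v₁ = (v₁ (C₁.z 0) / C₁.z 0) • C₁.th 0 :=
      sub_eq_zero.1 (ty0_der hy (by simp [tz, C₁.ne 0]))
    generalize v₁ (C₁.z 0) / C₁.z 0 = g at e1
    refine ⟨C₁, μ, hy, m0, h1, ?_⟩
    by_cases h0 : g - algebraMap ℂ k (b / μ) = 0
    · exact .inr (by rw [e1, sub_eq_zero.1 h0])
    rw [e1, e₁.smul, h1] at h2
    obtain ⟨m, hm⟩ := ty0_int hy tz h0 (c := -μ) (by
      rw [map_sub, Derivation.map_algebraMap, sub_zero, mul_sub, ← map_mul, neg_mul,
        mul_div_cancel₀ _ m0, map_neg, map_neg]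
      linear_combination h2)
    have e2 : n 1 * -m = 1 := by exact_mod_cast (show (n 1 : ℂ) * -m = 1 by rwa [← hm, neg_neg])
    have e3 : (-m) ^ 2 = 1 := by
      rcases Int.eq_one_or_neg_one_of_mul_eq_one' e2 with h | h <;> rw [h.2] <;> rfl
    rw [neg_eq_iff_eq_neg.1 hm]
    exact .inl (by exact_mod_cast e3)

end Pool.Agent.MP_ee8c61_ag.M3BQ
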