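import Pool.Agent.MP_ee8c61_ag.M3BQ.Kit

/-!
The type of a curve of exponent zero over a point.
-/

namespace Pool.Agent.MP_ee8c61_ag.M3BQ

open M3 M3RESID
open Pool.Agent.MP_96693b_ag.RS (Loc LocOf Chart IsCrd)

variable {L : Type} [Field L] [Algebra ℂ L]

theorem typ_sw {v : VF L} {C : Co L 2} {a : Fin 2 → ℂ} (h : Inv v C a) :
    Inv v (sw C) (sv a) := by
  rcases h with ⟨α, h⟩ | ⟨n, h⟩
  · refine Or.inl ⟨sv α, fun i => ?_⟩
    fin_cases i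
    · exact h 1
    · exact h 0
  · exact Or.inr ⟨sv n, (add_comm _ _).trans h⟩

theorem typ_qt {v : VF L} {C : Co L 2} {a : Fin 2 → ℂ} (h : Inv v C a) (c : ℂ) :
    Inv v (qt C c) (qv 1 c a) := by
  by_cases hc : c = 0
  · have q : qv 1 c a 1 = a 1 := if_pos hc
    have q0 : qv 1 c a 0 = a 0 + a 1 := rfl
    rcases h with ⟨α, h⟩ | ⟨n, h⟩
    · refine Or.inl ⟨![α 0, α 1 - α 0], fun i => ?_⟩
      fin_cases i
      · exact h 0
      · show v (sg C - algebraMap ℂ L c) =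
          algebraMap ℂ L (α 1 - α 0) * (sg C - algebraMap ℂ L c)
        have := C.ne 0
        rw [hc, map_zero, sub_zero, sg, Derivation.leibniz_div, h 0, h 1, map_sub]
        simp only [smul_eq_mul]
        field_simp
    · refine Or.inr ⟨![n 0, n 1 - n 0], ?_⟩
      rw [q, q0]
      simp only [Matrix.cons_val_zero, Matrix.cons_val_one]
      push_cast
      linear_combination h
  · have q : qv 1 c a 1 = 1 := if_neg hc
    refine Or.inr ⟨![0, 1], ?_⟩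
    rw [q]
    simp

theorem typ_gp {e : Dv L} {R : Loc L} {C : Co L 2} {a : Fin 2 → ℂ} (h : Reg R C)
    (ha : C.Ad R.O e a) : GP e 1 R C a 0 :=
  ⟨h, ha, by simp [Mn, Co.mon, Loc.ev_one]⟩

theorem typ_th (C : Co L 2) : (qt C 0).th 1 = C.th 1 := by
  show (sg C - algebraMap ℂ L 0) • C.z 0 • C.D 1 = C.z 1 • C.D 1
  rw [map_zero, sub_zero, smul_smul, mul_comm, ← z1_eq]

theorem ofTYP : OfTYP := by
  intro hEX hAD hXC hRT hBV hT0 L _ _ k _ _ P C₀ i e v v' b e₁ v₁ R C a hAt hE hb hv hvv hR ha hI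
    hD hRs hRe
  have st : Stab fun (R : Loc L) (C : Co L 2) => ∃ a, C.Ad R.O e a ∧ Inv v' C a := by
    constructor
    · rintro R C h ⟨a, h1, h2⟩
      exact ⟨_, (hAD L e 1 R C a 0 (typ_gp h h1)).1.ad, typ_sw h2⟩
    · rintro R C c R' h ⟨a, h1, h2⟩ hq
      exact ⟨_, ((hAD L e 1 R C a 0 (typ_gp h h1)).2 c R' hq).ad, typ_qt h2 c⟩
  obtain ⟨R', C', h1, ⟨a', h2, h3⟩, -, h4⟩ := hBV L _ P.o C₀ i st hAt R C hR ⟨a, ha, hI⟩ hD
  obtain ⟨Q, hQ⟩ := hEX L R' C' 0 h1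
  have h5 := hXC L R' C' P.o 0 Q h1 h4 hQ
  have h6 : a' 0 + a' 1 = 0 :=
    (h5.exp ((hAD L e 1 R' C' a' 0 (typ_gp h1 h2)).2 0 Q hQ).ad).uniq hE h5.adp.vz
  refine hT0 L k P (qt C' 0) e v v' b (a' 1) e₁ v₁ h5.adp ?_ hE ?_ hb hv hvv ?_ hRs hRe
  · rw [qt_z1, map_zero, sub_zero]
    exact hRT L k P R' C' h1 h4
  · rw [typ_th, ← div_mul_cancel₀ (_ - _) (C'.ne 1)]
    exact F_mul0 (h4.dm.le (h2 1)) (Or.inr (h4.v_z h1 1).ge)
  · have h7 := typ_qt h3 0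
    rwa [qv, h6, if_pos rfl] at h7

end Pool.Agent.MP_ee8c61_ag.M3BQ
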