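import Pool.Agent.MP_ee8c61_ag.M3BQ.Q

/-!
A root of a polynomial with a unit coefficient over an integrally closed local ring.
-/

namespace Pool.Agent.MP_ee8c61_ag.M3BQ

open Polynomial
open Pool.Agent.MP_96693b_ag.RS (Loc)

variable {L : Type} [Field L] [Algebra ℂ L]

theorem uu_int (R : Loc L) (p : L[X]) (u : L) (hc : ∀ i, p.coeff i ∈ R.O) (h0 : p.eval u = 0) :
    IsIntegral R.O (p.leadingCoeff * u) := by
  have hl : p ∈ lifts (algebraMap R.O L) :=
    (lifts_iff_coeff_lifts p).2 fun i => ⟨⟨_, hc i⟩, rfl⟩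
  obtain ⟨q, rfl⟩ := (mem_lifts p).1 hl
  have hi : Function.Injective (algebraMap R.O L) := Subtype.val_injective
  rw [eval_map_algebraMap] at h0
  have := isIntegral_leadingCoeff_smul q u h0
  rwa [Algebra.smul_def, ← leadingCoeff_map_of_injective hi] at this

theorem uu_aux (R : Loc L) (hR : ∀ g : L, IsIntegral R.O g → g ∈ R.O) (u : L) (n : ℕ) :
    ∀ p : L[X], p.natDegree ≤ n → (∀ i, p.coeff i ∈ R.O) → (∃ i, R.ev (p.coeff i) ≠ 0) →
      p.eval u = 0 → u ∈ R.O ∨ u⁻¹ ∈ R.O := by
  induction n with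
  | zero =>
    rintro p hn - ⟨i, hi⟩ h0
    rw [eq_C_of_natDegree_le_zero hn, eval_C] at h0
    rw [eq_C_of_natDegree_le_zero hn, h0, C_0, coeff_zero] at hi
    exact (hi Loc.ev_zero).elim
  | succ n ih =>
    rintro p hn hc ⟨i, hi⟩ h0
    rcases hn.lt_or_eq with h | h
    · exact ih p (Nat.lt_succ_iff.1 h) hc ⟨i, hi⟩ h0
    have ha : p.coeff (n + 1) * u ∈ R.O := by
      have := hR _ (uu_int R p u hc h0)
      rwa [leadingCoeff, h] at this
    by_cases h1 : R.ev (p.coeff (n + 1)) = 0
    swap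
    · left
      have := mul_mem (R.inv_mem _ (hc _) h1) ha
      rwa [inv_mul_cancel_left₀ (Loc.ne_zero_of_ev h1)] at this
    by_cases h2 : R.ev (p.coeff (n + 1) * u) = 0
    swap
    · right
      have h3 := Loc.ne_zero_of_ev h2
      have := mul_mem (hc (n + 1)) (R.inv_mem _ ha h2)
      rwa [mul_inv, mul_inv_cancel_left₀ (left_ne_zero_of_mul h3)] at this
    have hm : ∀ j, (monomial n (p.coeff (n + 1) * u)).coeff j ∈ R.O ∧
        R.ev ((monomial n (p.coeff (n + 1) * u)).coeff j) = 0 := fun j => by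
      rw [coeff_monomial]
      split_ifs
      · exact ⟨ha, h2⟩
      · exact ⟨zero_mem _, Loc.ev_zero⟩
    have he : ∀ j, p.eraseLead.coeff j ∈ R.O := fun j => by
      rw [eraseLead_coeff]
      split_ifs
      · exact zero_mem _
      · exact hc j
    refine ih (p.eraseLead + monomial n (p.coeff (n + 1) * u)) ?_ (fun j => ?_) ⟨i, ?_⟩ ?_
    · refine natDegree_add_le_of_degree_le ?_ (natDegree_monomial_le _)
      have := eraseLead_natDegree_le p
      omega
    · rw [coeff_add]
      exact add_mem (he j) (hm j).1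
    · have hne : i ≠ p.natDegree := fun e => hi (by rw [e, h]; exact h1)
      rw [coeff_add, R.ev_add _ (he i) _ (hm i).1, (hm i).2, add_zero,
        eraseLead_coeff_of_ne i hne]
      exact hi
    · have h3 := congrArg (eval u) (eraseLead_add_monomial_natDegree_leadingCoeff p)
      rw [eval_add, eval_monomial, leadingCoeff, h, h0] at h3
      rw [eval_add, eval_monomial, ← h3]
      ring

theorem suu : SUU := by
  intro L _ _ R hR p u hc hi h0
  exact uu_aux R hR u _ p le_rfl hc hi h0

end Pool.Agent.MP_ee8c61_ag.M3BQ
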