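import Pool.Agent.MP_ee8c61_ag.M3BQ.Kit

/-! The weight of a point does not depend on the coordinates. -/

namespace Pool.Agent.MP_ee8c61_ag.M3BQ

open M3 M3RESID
open Pool.Agent.MP_96693b_ag.RS (Loc LocOf Chart IsCrd)
open Pool.Agent.MP_96693b_ag

variable {L : Type} [Field L] [Algebra ℂ L] {P : Loc L} {C C' : Co L 2} {o o' : DV L}
  {i j : Fin 2} {e : Dv L} {ψ u : L} {a a' : Fin 2 → ℂ} {m m' : Fin 2 → ℤ}

theorem wt_unit (hle : ∀ g ∈ P.O, g ∈ o.F 0) (hu : P.ev u ≠ 0) : o.v u = 0 := by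
  have h0 := RS.Loc.ne_zero_of_ev hu
  have h1 := RS.Loc.mem_of_ev hu
  have h2 := (hle u h1).resolve_left h0
  have h3 := (hle _ (P.inv_mem u h1 hu)).resolve_left (inv_ne_zero h0)
  rw [o.inv] at h3
  omega

theorem wt_psi (hle : ∀ g ∈ P.O, g ∈ o.F 0) (h : Mn P C ψ m) : o.v ψ = o.v (C.mon m) := by
  have h1 := wt_unit hle h
  have h0 := RS.Loc.ne_zero_of_ev h
  have h2 := o.mul _ _ h0 (C.mon_ne m)
  rw [div_mul_cancel₀ _ (C.mon_ne m), h1, zero_add] at h2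
  exact h2

theorem wt_le (h : C.Dat P.O o i) (hle : ∀ g ∈ P.O, g ∈ o'.F 0) (hz : o'.v (C.z i) = 1) {g : L}
    (hg : g ∈ P.O) (h0 : g ≠ 0) : o.v g ≤ o'.v g := by
  obtain ⟨k, hk⟩ := Int.eq_ofNat_of_zero_le ((h.le g hg).resolve_left h0)
  have h1 : g ∈ o.F k := hk ▸ o.mem_F_self g
  have h2 := pow_ne_zero k (C.ne i)
  have h3 := (hle _ (dat_pow h k g hg h1)).resolve_left (div_ne_zero h0 h2)
  rw [div_eq_mul_inv, o'.mul _ _ h0 (inv_ne_zero h2), o'.inv, v_pow o' (C.ne i), hz] at h3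
  omega

theorem wt_match (hC : Reg P C) (hC' : Reg P C') (h : C.Dat P.O o i) (h' : C'.Dat P.O o' j)
    (hz : C'.z j ∈ o.F 1) : o = o' := by
  have h1 := h.div _ (hC'.z_mem j) hz
  have e1 : C'.z j = C.z i * (C'.z j / C.z i) := (mul_div_cancel₀ _ (C.ne i)).symm
  have h2 : P.ev (C'.z j / C.z i) ≠ 0 := fun h0 => by
    refine hC'.crd.x_notMem_sup (J := ∅) (Finset.notMem_empty j) (Submodule.mem_sup_right ?_)
    change C'.z j ∈ _
    rw [e1, pow_two]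
    exact Submodule.mul_mem_mul (hC.z_m i) (⟨h1, h0⟩ : _ ∈ P.m)
  have h0 := RS.Loc.ne_zero_of_ev h2
  have h3 := o.mul _ _ (C.ne i) h0
  have h4 := o'.mul _ _ (C.ne i) h0
  rw [← e1, wt_unit h.le h2, h.adp.vz] at h3
  rw [← e1, wt_unit h'.le h2, h'.adp.vz] at h4
  exact dv_ext' hC.frac fun g hg hg0 =>
    le_antisymm (wt_le h h'.le (by omega) hg hg0) (wt_le h' h.le (by omega) hg hg0)

theorem wt_eq (hG : GP e ψ P C a m) (hG' : GP e ψ P C' a' m') (h : C.Dat P.O o i)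
    (h' : C'.Dat P.O o j) : a i = a' j ∧ m i = m' j :=
  ⟨(h.exp hG.ad).uniq (h'.exp hG'.ad) h.adp.vz, by
    rw [← h.adp.v_mon m, ← h'.adp.v_mon m', ← wt_psi h.le hG.mn, ← wt_psi h.le hG'.mn]⟩

theorem wt_one (h1 : SONE) (hG : GP e ψ P C a m) (hG' : GP e ψ P C' a' m') (h : C.Dat P.O o i)
    (hz : ∀ j, C'.z j ∉ o.F 1) : a i = 1 ∧ m i = 0 := by
  have hv : ∀ j, o.v (C'.z j) = 0 := fun j => by
    have h2 := (h.le _ (hG'.reg.z_mem j)).resolve_left (C'.ne j)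
    have h3 : ¬(1 : ℤ) ≤ o.v (C'.z j) := fun h3 => hz j (Or.inr h3)
    omega
  constructor
  · refine h1 L 2 C' e o (a i) (dat_nz h.adp) (fun j => h.le _ (hG'.reg.z_mem j))
      (fun j g hg => ?_) (fun j => ?_) (h.exp hG.ad)
    · obtain ⟨q, hq, h0, hq0, hp⟩ := dat_loc h hG.reg.frac hg
      have h2 := F_div (sub_mem (h.le _ (hG'.reg.st.D j _ hp))
        (F_mul0 hg (h.le _ (hG'.reg.st.D j q hq)))) q
      rw [hq0, sub_zero] at h2
      refine F_of_eq h2 ?_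
      rw [Derivation.leibniz, smul_eq_mul, smul_eq_mul]
      field_simp
      ring
    · have h2 := F_div (sub_mem (cst_F o (a' j)) one_F) (C'.z j)
      rw [hv, sub_zero] at h2
      refine F_of_eq (add_mem (h.le _ (hG'.ad j)) h2) ?_
      have := C'.ne j
      rw [Co.th, e.smul, C'.dual, if_pos rfl]
      field_simp
      ring
  · rw [← h.adp.v_mon m, ← wt_psi h.le hG.mn, wt_psi h.le hG'.mn, Co.mon, Fin.prod_univ_two,
      o.mul _ _ (zpow_ne_zero _ (C'.ne 0)) (zpow_ne_zero _ (C'.ne 1)), v_zpow o (C'.ne 0),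
      v_zpow o (C'.ne 1), hv, hv]
    simp

theorem wt_comb {α F : Type} [CommMonoid F] {p q : Fin 2 → α} {A B : Fin 2 → F} (hp : p 0 ≠ p 1)
    (hq : q 0 ≠ q 1) (h1 : ∀ i j, p i = q j → A i = B j) (h2 : ∀ i, (∀ j, p i ≠ q j) → A i = 1)
    (h3 : ∀ j, (∀ i, p i ≠ q j) → B j = 1) : A 0 * A 1 = B 0 * B 1 := by
  simp only [Fin.forall_fin_two] at h1 h2 h3
  by_cases a : p 0 = q 0 <;> by_cases b : p 0 = q 1 <;> by_cases c : p 1 = q 0 <;>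
    by_cases d : p 1 = q 1
  all_goals first
    | exact absurd (a.symm.trans b) hq
    | exact absurd (c.symm.trans d) hq
    | exact absurd (a.trans c.symm) hp
    | exact absurd (b.trans d.symm) hp
    | rw [h1.1.1 a, h1.2.2 d]
    | rw [h1.1.2 b, h1.2.1 c, mul_comm]
    | rw [h1.1.1 a, h2.2 ⟨c, d⟩, h3.2 ⟨b, d⟩]
    | rw [h1.1.2 b, h2.2 ⟨c, d⟩, h3.1 ⟨a, c⟩, mul_comm]
    | rw [h1.2.1 c, h2.1 ⟨a, b⟩, h3.2 ⟨b, d⟩, mul_comm]
    | rw [h1.2.2 d, h2.1 ⟨a, b⟩, h3.1 ⟨a, c⟩]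
    | rw [h2.1 ⟨a, b⟩, h2.2 ⟨c, d⟩, h3.1 ⟨a, c⟩, h3.2 ⟨b, d⟩]

theorem wt_ne {o : Fin 2 → DV L} (h : ∀ i, C.Dat P.O (o i) i) : o 0 ≠ o 1 := fun e => by
  have h1 := (h 0).adp.vz
  rw [e, (h 1).adp.vz' zero_ne_one] at h1
  exact zero_ne_one h1

theorem ofWT : OfWT := by
  intro hc h1 L _ _ F _ _ ε e ψ P C a m hG
  obtain ⟨C', a', m', hG', hw⟩ := Classical.epsilon_spec (p := fun w : F => ∃ C a m,
    GP e ψ P C a m ∧ w = 1 / (lin ε (a 0) (m 0) * lin ε (a 1) (m 1))) ⟨_, C, a, m, hG, rfl⟩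
  rw [wt, hw]
  choose o ho using fun i => hc L P C i hG.reg
  choose o' ho' using fun j => hc L P C' j hG'.reg
  rw [wt_comb (A := fun i => lin ε (a i) (m i)) (B := fun j => lin ε (a' j) (m' j)) (wt_ne ho)
    (wt_ne ho') (fun i j h => ?_) (fun i h => ?_) fun j h => ?_]
  · obtain ⟨e1, e2⟩ := wt_eq hG hG' (ho i) (h ▸ ho' j)
    rw [e1, e2]
  · obtain ⟨e1, e2⟩ := wt_one h1 hG hG' (ho i) fun j hz =>
      h j (wt_match hG.reg hG'.reg (ho i) (ho' j) hz)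
    simp [lin, e1, e2]
  · obtain ⟨e1, e2⟩ := wt_one h1 hG' hG (ho' j) fun i hz =>
      h i (wt_match hG'.reg hG.reg (ho' j) (ho i) hz).symm
    simp [lin, e1, e2]

end Pool.Agent.MP_ee8c61_ag.M3BQ
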