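import Pool.Agent.MP_ee8c61_ag.M3BQ.QQEX
import Pool.Agent.MP_ee8c61_ag.M3BQ.QQRG
import Pool.Agent.MP_ee8c61_ag.M3BQ.QCDV
import Pool.Agent.MP_ee8c61_ag.M3BQ.QLEAD
import Pool.Agent.MP_ee8c61_ag.M3BQ.QORD
import Pool.Agent.MP_ee8c61_ag.M3BQ.QTRI
import Pool.Agent.MP_ee8c61_ag.M3BQ.QRAT
import Pool.Agent.MP_ee8c61_ag.M3BQ.QQAD
import Pool.Agent.MP_ee8c61_ag.M3BQ.QNRM
import Pool.Agent.MP_ee8c61_ag.M3BQ.QUU
import Pool.Agent.MP_ee8c61_ag.M3BQ.QGEN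
import Pool.Agent.MP_ee8c61_ag.M3BQ.QABH
import Pool.Agent.MP_ee8c61_ag.M3BQ.QONE
import Pool.Agent.MP_ee8c61_ag.M3BQ.QWT
import Pool.Agent.MP_ee8c61_ag.M3BQ.QABV
import Pool.Agent.MP_ee8c61_ag.M3BQ.QTY0
import Pool.Agent.MP_ee8c61_ag.M3BQ.QTYP
import Pool.Agent.MP_ee8c61_ag.M3BQ.QEXP
import Pool.Agent.MP_ee8c61_ag.M3BQ.QPT

/-! The statements on quadratic transforms, without hypotheses. -/

namespace Pool.Agent.MP_ee8c61_ag.M3BQ

theorem sord : SORD := (ofORD sqex sqrg scdv slead).1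
theorem sexc : SEXC := (ofORD sqex sqrg scdv slead).2
theorem stri : STRI := ofTRI slead
theorem srat : SRAT := ofRAT sqex slead sexc
theorem sqad : SQAD := ofQAD sqrg
theorem sabh : SABH := ofABH slead sord snrm suu sgen
theorem swt : SWT := ofWT scdv sone
theorem sabv : SABV := ofABV sqex sqrg sord sexc stri
theorem styp : STYP := ofTYP sqex sqad sexc srat sabv sty0
theorem sexp : SEXP := ofEXP sqex sqad sexc srat sabv

end Pool.Agent.MP_ee8c61_ag.M3BQ
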