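import Pool.Agent.MP_ee8c61_ag.M3BQ.Q

/-! Small facts on domination, orders and quadratic transforms. -/

namespace Pool.Agent.MP_ee8c61_ag.M3BQ

open M3 M3RESID
open Pool.Agent.MP_96693b_ag.RS (Loc LocOf Chart IsCrd)
open Pool.Agent.MP_96693b_ag

variable {L : Type} [Field L] [Algebra ℂ L] {R R' S : Loc L} {C : Co L 2} {c : ℂ}
  {V : ValuationSubring L} {o o' : DV L} {g h : L}

theorem Reg.z_m (h : Reg R C) (i : Fin 2) : C.z i ∈ R.m := h.crd.x_mem_m i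

theorem Reg.z_mem (h : Reg R C) (i : Fin 2) : C.z i ∈ R.O := (h.z_m i).1

theorem Reg.st (h : Reg R C) : C.St R.O := ⟨h.z_mem, h.crd.pres⟩

theorem Reg.sw (h : Reg R C) : Reg R (sw C) := by
  refine ⟨⟨?_, fun i => ?_, (M3BQ.sw C).dual⟩, h.frac⟩
  · rw [← h.crd.span]
    congr 1
    ext x
    simp [ch, M3BQ.sw, Fin.exists_fin_two, or_comm, eq_comm]
  · fin_cases i
    · exact h.crd.pres 1
    · exact h.crd.pres 0

theorem sg_sw (C : Co L 2) : sg (sw C) = (sg C)⁻¹ := by simp [sg, sw]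

theorem sg_ne (C : Co L 2) : sg C ≠ 0 := div_ne_zero (C.ne 1) (C.ne 0)

theorem z1_eq (C : Co L 2) : C.z 1 = C.z 0 * sg C := by rw [sg, mul_div_cancel₀ _ (C.ne 0)]

theorem qt_z0 (C : Co L 2) (c : ℂ) : (qt C c).z 0 = C.z 0 := rfl

theorem qt_z1 (C : Co L 2) (c : ℂ) : (qt C c).z 1 = sg C - algebraMap ℂ L c := rfl

omit [Algebra ℂ L] in
theorem un_O : Un o.O g ↔ g ≠ 0 ∧ o.v g = 0 := by
  refine and_congr_right fun h => ?_
  rw [DV.mem_O, DV.mem_O, DV.mem_F, DV.mem_F, o.inv]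
  simp only [h, inv_eq_zero, false_or]
  omega

omit [Algebra ℂ L] in
theorem not_un_O (hg : g ∈ o.F 0) : ¬Un o.O g ↔ g ∈ o.F 1 := by
  rw [un_O, DV.mem_F]
  by_cases h : g = 0
  · simp [h]
  · have := hg.resolve_left h
    simp only [h, ne_eq, not_false_eq_true, true_and, false_or]
    omega

theorem dm_O : Dm o.O R ↔ ∀ g ∈ R.O, g ∈ o.F 0 ∧ (R.ev g = 0 → g ∈ o.F 1) :=
  forall₂_congr fun _ _ => and_congr_right fun h => imp_congr_right fun _ => not_un_O h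

omit [Algebra ℂ L] in
theorem Un.mul' (hg : Un V g) (hh : Un V h) : Un V (g * h) :=
  ⟨mul_ne_zero hg.1 hh.1, V.mul_mem _ _ hg.2.1 hh.2.1,
    by rw [mul_inv]; exact V.mul_mem _ _ hg.2.2 hh.2.2⟩

omit [Algebra ℂ L] in
theorem nun_mul (hg : g ∈ V) (hh : h ∈ V) (hn : ¬Un V h) : ¬Un V (g * h) := fun hu =>
  hn ⟨right_ne_zero_of_mul hu.1, hh, by
    have h1 := left_ne_zero_of_mul hu.1
    have : h⁻¹ = g * (g * h)⁻¹ := by rw [mul_inv, mul_inv_cancel_left₀ h1]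
    rw [this]
    exact V.mul_mem _ _ hg hu.2.2⟩

omit [Algebra ℂ L] in
theorem nun_iff (hg : g ∈ V) : ¬Un V g ↔ V.valuation g < 1 := by
  by_cases h : g = 0
  · simp [h, Un]
  rw [Un, ← V.valuation_le_one_iff g⁻¹, map_inv₀,
    inv_le_one₀ (zero_lt_iff.2 ((map_ne_zero _).2 h))]
  simp [h, hg]

omit [Algebra ℂ L] in
theorem nun_add (hg : g ∈ V) (hh : h ∈ V) (hn : ¬Un V g) (hn' : ¬Un V h) : ¬Un V (g + h) :=
  (nun_iff (V.add_mem _ _ hg hh)).2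
    (V.valuation.map_add_lt ((nun_iff hg).1 hn) ((nun_iff hh).1 hn'))

omit [Algebra ℂ L] in
theorem dv_ext (h : Nz o) (h' : Nz o') (e : o.O = o'.O) : o = o' := by
  obtain ⟨x, hx⟩ := h
  obtain ⟨x', hx'⟩ := h'
  have h0 : x ≠ 0 := fun e => by simp [e, o.zero] at hx
  have h0' : x' ≠ 0 := fun e => by simp [e, o'.zero] at hx'
  have h1 : ∀ g, g ≠ 0 → o'.v g = o.v g * o'.v x := fun g hg => by
    have h2 : Un o.O (g * (x ^ o.v g)⁻¹) := un_O.2 ⟨mul_ne_zero hg (inv_ne_zero (zpow_ne_zero _ h0)),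
      by rw [o.mul _ _ hg (inv_ne_zero (zpow_ne_zero _ h0)), o.inv, v_zpow o h0, hx]; ring⟩
    have h3 := (un_O.1 (e ▸ h2)).2
    rw [o'.mul _ _ hg (inv_ne_zero (zpow_ne_zero _ h0)), o'.inv, v_zpow o' h0] at h3
    omega
  have h2 : 0 ≤ o'.v x := by
    have : x ∈ o'.O := e ▸ (Or.inr (by omega) : x ∈ o.F 0)
    exact (o'.mem_F.1 this).resolve_left h0
  have h3 : o'.v x = 1 := Int.eq_one_of_mul_eq_one_left h2 (hx' ▸ (h1 x' h0').symm)
  have h4 : o.v = o'.v := funext fun g => by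
    by_cases hg : g = 0
    · rw [hg, o.zero, o'.zero]
    · rw [h1 g hg, h3, mul_one]
  cases o
  cases o'
  congr

theorem Dm.le (h : Dm V R) (hg : g ∈ R.O) : g ∈ V := (h g hg).1

theorem Dm.un (h : Dm V R) (hg : R.ev g ≠ 0) : Un V g :=
  ⟨RS.Loc.ne_zero_of_ev hg, h.le (RS.Loc.mem_of_ev hg),
    h.le (R.inv_mem g (RS.Loc.mem_of_ev hg) hg)⟩

theorem Dm.nun (h : Dm V R) (hg : g ∈ R.m) : ¬Un V g := (h g hg.1).2 hg.2

theorem Dm.mono (h : Dm V S) (hle : R.O ≤ S.O) : Dm V R := fun g hg =>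
  ⟨h.le (hle hg), fun e => (h g (hle hg)).2 ((RS.Loc.ev_eq_of_le hle hg).trans e)⟩

theorem Dm.ev_eq (h : Dm V S) (hg : g ∈ S.O) (hn : ¬Un V (g - algebraMap ℂ L c)) :
    S.ev g = c := by
  by_contra e
  refine hn (h.un ?_)
  rw [RS.Loc.ev_sub hg (S.O.algebraMap_mem c), S.ev_alg]
  exact sub_ne_zero.2 e

/-- A criterion for domination of a localisation. -/
theorem dm_of_locOf {B : Subalgebra ℂ L} (hB : LocOf B S)
    (h : ∀ g ∈ B, g ∈ V ∧ ¬Un V (g - algebraMap ℂ L (S.ev g))) : Dm V S := by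
  have hc : ∀ c : ℂ, algebraMap ℂ L c ∈ V := fun c => (h _ (B.algebraMap_mem c)).1
  have hu : ∀ q ∈ B, S.ev q ≠ 0 → Un V q := fun q hq h0 => by
    by_contra hn
    have h1 := nun_add (h q hq).1 (V.mul_mem _ _ (V.neg_mem _ V.one_mem)
      (V.toSubring.sub_mem (h q hq).1 (hc _))) hn
      (nun_mul (V.neg_mem _ V.one_mem) (V.toSubring.sub_mem (h q hq).1 (hc _)) (h q hq).2)
    refine h1 ?_
    rw [show q + -1 * (q - algebraMap ℂ L (S.ev q)) = algebraMap ℂ L (S.ev q) by ring]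
    exact ⟨(map_ne_zero _).2 h0, hc _, by rw [← map_inv₀]; exact hc _⟩
  intro g hg
  obtain ⟨p, hp, q, hq, h0, e⟩ := hB.frac g hg
  have h1 := hu q hq h0
  have e1 : g = q⁻¹ * p := by rw [← e, mul_comm g, inv_mul_cancel_left₀ h1.1]
  refine ⟨e1 ▸ V.mul_mem _ _ h1.2.2 (h p hp).1, fun h2 => e1 ▸ nun_mul h1.2.2 (h p hp).1 ?_⟩
  have h3 := (h p hp).2
  rwa [← e, S.ev_mul g hg q (hB.le hq), h2, zero_mul, map_zero, sub_zero, e] at h3

theorem IsQ.le (h : IsQ R C c R') : R.O ≤ R'.O := le_sup_left.trans h.1.le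

theorem sg_mem_sup (R : Loc L) (C : Co L 2) : sg C ∈ R.O ⊔ Algebra.adjoin ℂ {sg C} :=
  (le_sup_right : Algebra.adjoin ℂ {sg C} ≤ _) (Algebra.subset_adjoin rfl)

theorem IsQ.mem (h : IsQ R C c R') : sg C ∈ R'.O := h.1.le (sg_mem_sup R C)

theorem IsQ.z1 (h : IsQ R C c R') : sg C - algebraMap ℂ L c ∈ R'.m := by
  have := RS.Loc.sub_ev_mem h.mem
  rwa [h.2] at this

/-- Induction on the elements of `A[y]`. -/
theorem sup_ind {A : Subalgebra ℂ L} {y : L} {p : L → Prop} (hA : ∀ g ∈ A, p g) (hy : p y)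
    (ha : ∀ g ∈ A ⊔ Algebra.adjoin ℂ {y}, ∀ h ∈ A ⊔ Algebra.adjoin ℂ {y}, p g → p h → p (g + h))
    (hm : ∀ g ∈ A ⊔ Algebra.adjoin ℂ {y}, ∀ h ∈ A ⊔ Algebra.adjoin ℂ {y}, p g → p h → p (g * h))
    (hg : g ∈ A ⊔ Algebra.adjoin ℂ {y}) : p g := by
  have e : A ⊔ Algebra.adjoin ℂ {y} = Algebra.adjoin ℂ ((A : Set L) ∪ {y}) := by
    rw [Algebra.adjoin_union, Algebra.adjoin_eq]
  rw [e] at hg ha hm
  induction hg using Algebra.adjoin_induction with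
  | mem x hx => exact hx.elim (hA x) fun e => e ▸ hy
  | algebraMap r => exact hA _ (A.algebraMap_mem r)
  | add x y hx hy h1 h2 => exact ha x hx y hy h1 h2
  | mul x y hx hy h1 h2 => exact hm x hx y hy h1 h2

theorem IsQ.le_of (h : IsQ R C c R') (hle : R.O ≤ S.O) (hs : sg C ∈ S.O)
    (he : S.ev (sg C) = c) : R'.O ≤ S.O := by
  have h1 : R.O ⊔ Algebra.adjoin ℂ {sg C} ≤ S.O :=
    sup_le hle (Algebra.adjoin_le (Set.singleton_subset_iff.2 hs))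
  refine h.1.le_of_ev h1 fun g hg => sup_ind (p := fun g => S.ev g = R'.ev g) ?_ ?_ ?_ ?_ hg
  · exact fun g hg => (RS.Loc.ev_eq_of_le hle hg).trans (RS.Loc.ev_eq_of_le h.le hg).symm
  · exact he.trans h.2.symm
  · intro g hg k hk e1 e2
    rw [S.ev_add _ (h1 hg) _ (h1 hk), R'.ev_add _ (h.1.le hg) _ (h.1.le hk), e1, e2]
  · intro g hg k hk e1 e2
    rw [S.ev_mul _ (h1 hg) _ (h1 hk), R'.ev_mul _ (h.1.le hg) _ (h.1.le hk), e1, e2]

theorem IsQ.uniq (h : IsQ R C c R') (h' : IsQ R C c S) : R' = S :=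
  RS.Loc.ext' (le_antisymm (h.le_of h'.le h'.mem h'.2) (h'.le_of h.le h.mem h.2))

theorem IsQ.dm (h : IsQ R C c R') (hV : Dm V R) (hs : sg C ∈ V)
    (hn : ¬Un V (sg C - algebraMap ℂ L c)) : Dm V R' := by
  have hc : ∀ c : ℂ, algebraMap ℂ L c ∈ V := fun c => hV.le (R.O.algebraMap_mem c)
  refine dm_of_locOf h.1 fun g hg =>
    sup_ind (p := fun g => g ∈ V ∧ ¬Un V (g - algebraMap ℂ L (R'.ev g))) ?_ ?_ ?_ ?_ hg
  · intro g hg
    rw [RS.Loc.ev_eq_of_le h.le hg]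
    exact ⟨hV.le hg, hV.nun (RS.Loc.sub_ev_mem hg)⟩
  · exact ⟨hs, h.2 ▸ hn⟩
  · intro g hg k hk e1 e2
    refine ⟨V.add_mem _ _ e1.1 e2.1, ?_⟩
    rw [R'.ev_add _ (h.1.le hg) _ (h.1.le hk), map_add, add_sub_add_comm]
    exact nun_add (V.toSubring.sub_mem e1.1 (hc _)) (V.toSubring.sub_mem e2.1 (hc _)) e1.2 e2.2
  · intro g hg k hk e1 e2
    refine ⟨V.mul_mem _ _ e1.1 e2.1, ?_⟩
    have h1 := V.toSubring.sub_mem e1.1 (hc (R'.ev g))
    have h2 := V.toSubring.sub_mem e2.1 (hc (R'.ev k))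
    rw [R'.ev_mul _ (h.1.le hg) _ (h.1.le hk), map_mul,
      show g * k - algebraMap ℂ L (R'.ev g) * algebraMap ℂ L (R'.ev k) =
        k * (g - algebraMap ℂ L (R'.ev g)) +
        algebraMap ℂ L (R'.ev g) * (k - algebraMap ℂ L (R'.ev k)) by ring]
    exact nun_add (V.mul_mem _ _ e2.1 h1) (V.mul_mem _ _ (hc _) h2) (nun_mul e2.1 h1 e1.2)
      (nun_mul (hc _) h2 e2.2)

theorem IsOrd.dm (h : IsOrd R o) : Dm o.O R := dm_O.2 fun g hg =>
  ⟨(h g hg 0).2 (by rw [pow_zero]; exact RS.Loc.mem_one.2 hg),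
    fun e => (h g hg 1).2 (by rw [pow_one]; exact ⟨hg, e⟩)⟩

theorem IsOrd.v_eq (h : IsOrd R o) (hg : g ∈ R.O) {k : ℕ} (h1 : g ∈ R.m ^ k)
    (h2 : g ∉ R.m ^ (k + 1)) : o.v g = k := by
  have h0 : g ≠ 0 := fun e => h2 (e ▸ zero_mem _)
  have h3 := ((h g hg k).2 h1).resolve_left h0
  have h4 : ¬((k + 1 : ℕ) : ℤ) ≤ o.v g := fun e => h2 ((h g hg (k + 1)).1 (Or.inr e))
  omega

theorem IsOrd.v_z (h : IsOrd R o) (hR : Reg R C) (i : Fin 2) : o.v (C.z i) = 1 :=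
  h.v_eq (k := 1) (hR.z_mem i) (by rw [pow_one]; exact hR.z_m i) fun h2 =>
    hR.crd.x_notMem_sup (J := ∅) (Finset.notMem_empty i) (Submodule.mem_sup_right h2)

theorem IsOrd.nz (h : IsOrd R o) (hR : Reg R C) : Nz o := ⟨_, h.v_z hR 0⟩

theorem dv_ext' (hf : ∀ g : L, ∃ q ∈ R.O, q ≠ 0 ∧ g * q ∈ R.O)
    (h : ∀ g ∈ R.O, g ≠ 0 → o.v g = o'.v g) : o = o' := by
  have h4 : o.v = o'.v := funext fun g => by
    by_cases hg : g = 0
    · rw [hg, o.zero, o'.zero]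
    obtain ⟨q, hq, h0, hp⟩ := hf g
    have h1 := h _ hp (mul_ne_zero hg h0)
    rw [o.mul _ _ hg h0, o'.mul _ _ hg h0, h q hq h0] at h1
    omega
  cases o
  cases o'
  congr

theorem IsOrd.uniq (h : IsOrd R o) (h' : IsOrd R o') (hR : Reg R C) : o = o' :=
  dv_ext' hR.frac fun g hg h0 => by
    have h1 := (h.dm.le hg : g ∈ o.F 0).resolve_left h0
    have h2 := (h'.dm.le hg : g ∈ o'.F 0).resolve_left h0
    have h3 := ((h' g hg (o.v g).toNat).2 ((h g hg _).1 (Or.inr (by omega)))).resolve_left h0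
    have h4 := ((h g hg (o'.v g).toNat).2 ((h' g hg _).1 (Or.inr (by omega)))).resolve_left h0
    omega

section Dat

variable {n : ℕ} {D : Co L n} {O : Subalgebra ℂ L} {i : Fin n}

theorem dat_nz (h : D.At o i) : Nz o := ⟨_, h.vz⟩

theorem dat_pow (h : D.Dat O o i) (k : ℕ) : ∀ g ∈ O, g ∈ o.F k → g / D.z i ^ k ∈ O := by
  induction k with
  | zero => intro g hg _; simpa using hg
  | succ k ih =>
    intro g hg h1
    have h2 := h.div g hg (o.F_anti (by omega) h1)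
    have h3 := F_div h1 (D.z i)
    rw [h.adp.vz, show ((k + 1 : ℕ) : ℤ) - 1 = k by push_cast; ring] at h3
    have := ih _ h2 h3
    rwa [div_div, ← pow_succ'] at this

/-- The valuation ring of a coordinate hypersurface is a localisation. -/
theorem dat_loc (h : D.Dat O o i) (hf : ∀ g : L, ∃ q ∈ O, q ≠ 0 ∧ g * q ∈ O) (hg : g ∈ o.F 0) :
    ∃ q ∈ O, q ≠ 0 ∧ o.v q = 0 ∧ g * q ∈ O := by
  obtain ⟨q, hq, h0, hp⟩ := hf g
  obtain ⟨k, hk⟩ := Int.eq_ofNat_of_zero_le ((h.le q hq).resolve_left h0)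
  have h1 : q ∈ o.F k := hk ▸ o.mem_F_self q
  have h2 := pow_ne_zero k (D.ne i)
  refine ⟨q / D.z i ^ k, dat_pow h k q hq h1, div_ne_zero h0 h2, ?_, ?_⟩
  · rw [div_eq_mul_inv, o.mul _ _ h0 (inv_ne_zero h2), o.inv, v_pow o (D.ne i), h.adp.vz, hk]
    ring
  · rw [← mul_div_assoc]
    exact dat_pow h k _ hp (F_mul0 hg h1)

end Dat

end Pool.Agent.MP_ee8c61_ag.M3BQ
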