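import Pool.Agent.MP_ee8c61_ag.M3BK.Spec
import Pool.Agent.MP_ee8c61_ag.M3BQ.Kit

/-! The two descriptions of regular points agree. -/

namespace Pool.Agent.MP_ee8c61_ag.M3BQ

open M3 M3RESID
open Pool.Agent.MP_96693b_ag.RS (Loc LocOf)
open Pool.Agent.MP_96693b_ag

variable {L : Type} [Field L] [Algebra ℂ L] {x : Loc L} {C : Co L 2} {V : ValuationSubring L}

theorem rg_iff : M3BK.Rg C x ↔ Reg x C := by
  refine ⟨fun h => ⟨⟨le_antisymm (RS.Loc.span_le.2 ?_) fun g hg => ?_, h.st.D, C.dual⟩, fun g => ?_⟩,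
    fun h => ⟨h.st, fun i => (h.z_m i).2, fun g hg h0 => ?_, fun g => ?_⟩⟩
  · rintro _ ⟨i, rfl⟩
    exact ⟨h.st.z i, h.ev i⟩
  · obtain ⟨k, hk, e⟩ := h.mx g hg.1 hg.2
    rw [e]
    exact sum_mem fun i _ => RS.Loc.mul_mem_right (hk i) (RS.Loc.subset_span ⟨i, rfl⟩)
  · obtain ⟨s, h1, h2, h3⟩ := h.fr g
    exact ⟨s, h1, h2, mul_comm s g ▸ h3⟩
  · have h1 : g ∈ x.span (Set.range C.z) := h.crd.span.ge (⟨hg, h0⟩ : g ∈ x.m)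
    obtain ⟨c, hc⟩ := (Submodule.mem_span_range_iff_exists_fun _).1 h1
    exact ⟨fun i => c i, fun i => (c i).2, hc ▸ Finset.sum_congr rfl fun i _ => mul_comm _ _⟩
  · obtain ⟨s, h1, h2, h3⟩ := h.frac g
    exact ⟨s, h1, h2, mul_comm g s ▸ h3⟩

theorem dm_iff : M3BK.Dm x V ↔ Dm V x :=
  ⟨fun h g hg => ⟨h.1 g hg, h.2 g hg⟩, fun h => ⟨fun g hg => (h g hg).1, fun g hg => (h g hg).2⟩⟩

theorem gp_iff {d : Dv L} {ψ : L} {a : Fin 2 → ℂ} {m : Fin 2 → ℤ} :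
    M3BK.GP d ψ C x a m ↔ GP d ψ x C a m :=
  ⟨fun h => ⟨rg_iff.1 h.rg, h.ad, h.mn⟩, fun h => ⟨rg_iff.2 h.reg, h.ad, h.mn⟩⟩

theorem fg_of_conP {W : Set (Loc L)} (h : ConP W) (hx : x ∈ W) :
    ∃ B : Subalgebra ℂ L, B.FG ∧ LocOf B x := by
  induction h with
  | pc κ y S _ => exact ⟨_, Subalgebra.fg_def.2 ⟨_, Set.finite_range y, rfl⟩, hx.1⟩
  | union _ _ h1 h2 => exact hx.elim h1 h2

end Pool.Agent.MP_ee8c61_ag.M3BQ
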