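import Pool.Agent.MP_ee8c61_ag.M3.Eu
import Pool.Agent.MP_ee8c61_ag.M3RESID.Res
import Pool.Agent.MP_96693b_ag.DR.RLVal
import Pool.Agent.MP_96693b_ag.DR.RLBlChart
import Pool.Agent.MP_96693b_ag.DR.RAff

/-!
Regular points of a function field in two variables, quadratic transforms, weights, integrals
with respect to the Euler characteristic: definitions and statements.
-/

namespace Pool.Agent.MP_ee8c61_ag.M3BQ

open M3 M3RESID
open Pool.Agent.MP_96693b_ag.RS (Loc LocOf Chart IsCrd)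

noncomputable section

section Defs

variable {L : Type} [Field L] [Algebra ℂ L]

/-- Coordinates as a chart. -/
def ch {n : ℕ} (C : Co L n) : Chart L n := ⟨C.z, C.D⟩

/-- `P` is a regular point with coordinates `C`. -/
structure Reg (P : Loc L) (C : Co L 2) : Prop where
  crd : IsCrd P (ch C)
  frac : ∀ g : L, ∃ q ∈ P.O, q ≠ 0 ∧ g * q ∈ P.O

/-- The valuation ring `V` dominates `P`. -/
def Dm (V : ValuationSubring L) (P : Loc L) : Prop :=
  ∀ g ∈ P.O, g ∈ V ∧ (P.ev g = 0 → ¬Un V g)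

/-- The valuation is normalised. -/
def Nz (o : DV L) : Prop := ∃ x, o.v x = 1

/-- `o` is the order with respect to the maximal ideal of `P`. -/
def IsOrd (P : Loc L) (o : DV L) : Prop := ∀ g ∈ P.O, ∀ k : ℕ, g ∈ o.F k ↔ g ∈ P.m ^ k

/-- The slope. -/
def sg (C : Co L 2) : L := C.z 1 / C.z 0

/-- The coordinates exchanged. -/
def sw (C : Co L 2) : Co L 2 where
  z := ![C.z 1, C.z 0]
  D := ![C.D 1, C.D 0]
  ne i := by fin_cases i <;> simp [C.ne]
  dual i j := by fin_cases i <;> fin_cases j <;> simp [C.dual]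
  span v h := C.span v fun i => by
    fin_cases i
    · exact h 1
    · exact h 0

theorem D1_sg (C : Co L 2) : C.z 0 * C.D 1 (sg C) = 1 := by
  have h := C.ne 0
  simp only [sg, Derivation.leibniz_div, C.dual, smul_eq_mul]
  simp
  field_simp

theorem D0_sg (C : Co L 2) : C.D 0 (sg C) + sg C * C.D 1 (sg C) = 0 := by
  have h := C.ne 0
  simp only [sg, Derivation.leibniz_div, C.dual, smul_eq_mul]
  simp
  field_simp
  ring

/-- The coordinates at the point of slope `c` of the blow-up. -/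
def qt (C : Co L 2) (c : ℂ) : Co L 2 where
  z := ![C.z 0, sg C - algebraMap ℂ L c]
  D := ![C.D 0 + sg C • C.D 1, C.z 0 • C.D 1]
  ne i := by
    fin_cases i
    · exact C.ne 0
    · intro h
      have h1 := D1_sg C
      rw [sub_eq_zero.1 h, Derivation.map_algebraMap, mul_zero] at h1
      exact zero_ne_one h1
  dual i j := by
    fin_cases i <;> fin_cases j <;> simp [C.dual, D0_sg, D1_sg]
  span v h := C.span v fun i => by
    have h0 : v (C.z 0) = 0 := h 0
    have h1 : v (sg C) = 0 := by simpa using h 1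
    have h2 : C.z 1 = C.z 0 * sg C := by rw [sg, mul_div_cancel₀ _ (C.ne 0)]
    fin_cases i
    · exact h0
    · show v (C.z 1) = 0
      rw [h2, Derivation.leibniz, h0, h1, smul_zero, smul_zero, add_zero]

/-- `R'` is the point of slope `c` of the blow-up of `R`. -/
def IsQ (R : Loc L) (C : Co L 2) (c : ℂ) (R' : Loc L) : Prop :=
  LocOf (R.O ⊔ Algebra.adjoin ℂ {sg C}) R' ∧ R'.ev (sg C) = c

/-- `ψ` is a unit of `P` times the monomial `m`. -/
def Mn (P : Loc L) (C : Co L 2) (ψ : L) (m : Fin 2 → ℤ) : Prop := P.ev (ψ / C.mon m) ≠ 0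

/-- Exchange of two entries. -/
def sv {α : Type} (a : Fin 2 → α) : Fin 2 → α := ![a 1, a 0]

open Classical in
/-- The entries after a quadratic transform; `u` is the entry of a general curve. -/
def qv {α : Type} [Add α] (u : α) (c : ℂ) (a : Fin 2 → α) : Fin 2 → α :=
  ![a 0 + a 1, if c = 0 then a 1 else u]

/-- A regular point at which the volume form and `ψ` are monomial. -/
structure GP (e : Dv L) (ψ : L) (P : Loc L) (C : Co L 2) (a : Fin 2 → ℂ) (m : Fin 2 → ℤ) :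
    Prop where
  reg : Reg P C
  ad : C.Ad P.O e a
  mn : Mn P C ψ m

/-- The property `Φ` passes to quadratic transforms. -/
structure Stab (Φ : Loc L → Co L 2 → Prop) : Prop where
  sw : ∀ R C, Reg R C → Φ R C → Φ R (sw C)
  qt : ∀ R C c R', Reg R C → Φ R C → IsQ R C c R' → Φ R' (qt C c)

/-- The field is the field of rational functions in `y`. -/
def Rat (y : L) : Prop := Transcendental ℂ y ∧ IntermediateField.adjoin ℂ {y} = ⊤

/-- The residue form on a rational curve has exponents `μ, -μ, 1, …`. -/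
def Typ (e : Dv L) (v : VF L) (b : ℂ) : Prop :=
  ∃ (C : Co L 1) (μ : ℂ), Rat (C.z 0) ∧ μ ≠ 0 ∧ e.δ (C.th 0) = algebraMap ℂ L μ ∧
    (μ ^ 2 = 1 ∨ v = algebraMap ℂ L (b / μ) • C.th 0)

/-- The field `v` is linear in the coordinates, or the exponents generate `1`. -/
def Inv (v : VF L) (C : Co L 2) (a : Fin 2 → ℂ) : Prop :=
  (∃ α : Fin 2 → ℂ, ∀ i, v (C.z i) = algebraMap ℂ L (α i) * C.z i) ∨
    ∃ n : Fin 2 → ℤ, n 0 * a 0 + n 1 * a 1 = 1

/-- Modulo exact fields `v` has poles on the coordinate curves only. -/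
def Pol (e : Dv L) (v : VF L) (R : Loc L) (C : Co L 2) : Prop :=
  ∃ u ∈ e.Ex, ∃ N : ℕ, v - u ∈ C.F R.O fun _ => -(N : ℤ)

/-- `w` is a Laurent polynomial in a coordinate whose Euler field has constant divergence. -/
def Lau (e : Dv L) (w : L) : Prop :=
  ∃ (C : Co L 1) (μ : ℂ), Rat (C.z 0) ∧ e.δ (C.th 0) = algebraMap ℂ L μ ∧
    w ∈ Algebra.adjoin ℂ {C.z 0, (C.z 0)⁻¹}

/-! ### Weights and integrals -/

variable {F : Type}

/-- The deformed exponent. -/
def lin [Field F] [Algebra ℂ F] (ε : F) (a : ℂ) (m : ℤ) : F := algebraMap ℂ F a + m * ε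

/-- The weight of a point. -/
def wt [Field F] [Algebra ℂ F] (ε : F) (e : Dv L) (ψ : L) (P : Loc L) : F :=
  Classical.epsilon fun w => ∃ C a m, GP e ψ P C a m ∧
    w = 1 / (lin ε (a 0) (m 0) * lin ε (a 1) (m 1))

/-! ### Surfaces over a point -/

/-- A valuation has at most one centre. -/
def Sep (X : Set (Loc L)) : Prop := ∀ V, ∀ S ∈ X, ∀ S' ∈ X, Dm V S → Dm V S' → S = S'

/-- The points of `X` over `R`. -/
def Fib (X : Set (Loc L)) (R : Loc L) : Set (Loc L) := {S ∈ X | R.O ≤ S.O}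

/-- The curves of `X` that are contracted to `R`. -/
def Cv (X : Set (Loc L)) (R : Loc L) : Set (ValuationSubring L) :=
  {V | Dm V R ∧ ∀ S ∈ X, ¬Dm V S}

/-- `X` is a regular surface that is proper and birational over `R`. -/
structure Tw (X : Set (Loc L)) (R : Loc L) : Prop where
  reg : ∀ S ∈ X, ∃ C, Reg S C
  sep : Sep X
  ov : ∀ V, ∀ S ∈ X, Dm V S → Dm V R → R.O ≤ S.O
  fin : (Cv X R).Finite

end Defs

/-! ### Statements -/

/-- Quantification over the field. -/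
def AllL (p : ∀ (L : Type) [Field L] [Algebra ℂ L], Prop) : Prop :=
  ∀ (L : Type) [Field L] [Algebra ℂ L], p L

/-- Existence of quadratic transforms. -/
def SQEX : Prop := AllL fun L _ _ => ∀ (R : Loc L) (C : Co L 2) (c : ℂ), Reg R C →
  ∃ R', IsQ R C c R'

/-- Quadratic transforms are regular. -/
def SQRG : Prop := AllL fun L _ _ => ∀ (R : Loc L) (C : Co L 2) (c : ℂ) (R' : Loc L), Reg R C →
  IsQ R C c R' → Reg R' (qt C c)

/-- The valuations of the coordinate curves. -/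
def SCDV : Prop := AllL fun L _ _ => ∀ (R : Loc L) (C : Co L 2) (i : Fin 2), Reg R C →
  ∃ o, C.Dat R.O o i

/-- The order of a regular point. -/
def SORD : Prop := AllL fun L _ _ => ∀ (R : Loc L) (C : Co L 2), Reg R C → ∃ o, IsOrd R o

/-- Leading forms. -/
def SLEAD : Prop := AllL fun L _ _ => ∀ (R : Loc L) (C : Co L 2), Reg R C →
  ∀ g ∈ R.O, g ≠ 0 → ∃ (k : ℕ) (H : Polynomial ℂ), g ∈ R.m ^ k ∧ g ∉ R.m ^ (k + 1) ∧ H ≠ 0 ∧
    (g / C.z 0 ^ k - Polynomial.aeval (sg C) H) / C.z 0 ∈ R.O ⊔ Algebra.adjoin ℂ {sg C}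

/-- A valuation that dominates `R` and no quadratic transform is the order. -/
def STRI : Prop := AllL fun L _ _ => ∀ (R : Loc L) (C : Co L 2) (o : DV L)
  (V : ValuationSubring L), Reg R C → IsOrd R o → Dm V R → sg C ∈ V →
  (∀ c : ℂ, Un V (sg C - algebraMap ℂ L c)) → V = o.O

/-- The order is the valuation of the exceptional curve. -/
def SEXC : Prop := AllL fun L _ _ => ∀ (R : Loc L) (C : Co L 2) (o : DV L) (c : ℂ) (R' : Loc L),
  Reg R C → IsOrd R o → IsQ R C c R' → (qt C c).Dat R'.O o 0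

/-- The residue field of the order. -/
def SRAT : Prop := AllL fun L _ _ => ∀ (k : Type) [Field k] [Algebra ℂ k] (P : Pl L k)
  (R : Loc L) (C : Co L 2), Reg R C → IsOrd R P.o → Rat (P.π (sg C))

/-- The volume form and monomials under quadratic transforms. -/
def SQAD : Prop := AllL fun L _ _ => ∀ (e : Dv L) (ψ : L) (R : Loc L) (C : Co L 2)
  (a : Fin 2 → ℂ) (m : Fin 2 → ℤ), GP e ψ R C a m → GP e ψ R (sw C) (sv a) (sv m) ∧
    ∀ c R', IsQ R C c R' → GP e ψ R' (qt C c) (qv 1 c a) (qv 0 c m)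

/-- Regular points are normal. -/
def SNRM : Prop := AllL fun L _ _ => ∀ (R : Loc L) (C : Co L 2), Reg R C →
  ∀ g : L, IsIntegral R.O g → g ∈ R.O

/-- A root of a polynomial with a unit coefficient. -/
def SUU : Prop := AllL fun L _ _ => ∀ (R : Loc L), (∀ g : L, IsIntegral R.O g → g ∈ R.O) →
  ∀ (p : Polynomial L) (u : L), (∀ i, p.coeff i ∈ R.O) → (∃ i, R.ev (p.coeff i) ≠ 0) →
  p.eval u = 0 → u ∈ R.O ∨ u⁻¹ ∈ R.O

/-- The order of `R` dominates no other regular point over `R`. -/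
def SGEN : Prop := AllL fun L _ _ => ∀ (R S : Loc L) (C C' : Co L 2) (o : DV L), Reg R C →
  Reg S C' → R.O ≤ S.O → IsOrd R o → Dm o.O S → R = S

/-- Factorisation through the blow-up. -/
def SABH : Prop := AllL fun L _ _ => ∀ (R S : Loc L) (C C' : Co L 2), Reg R C → Reg S C' →
  R.O ≤ S.O → R ≠ S → sg C ∈ S.O ∨ (sg C)⁻¹ ∈ S.O

/-- A frame without poles gives exponent one. -/
def SONE : Prop := AllL fun L _ _ => ∀ (n : ℕ) (C : Co L n) (e : Dv L) (o : DV L) (a : ℂ), Nz o →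
  (∀ i, C.z i ∈ o.F 0) → (∀ i, ∀ g ∈ o.F 0, C.D i g ∈ o.F 0) → (∀ i, e.δ (C.D i) ∈ o.F 0) →
  Exp e o a → a = 1

/-- The weight does not depend on the coordinates. -/
def SWT : Prop := AllL fun L _ _ => ∀ (F : Type) [Field F] [Algebra ℂ F] (ε : F) (e : Dv L)
  (ψ : L) (P : Loc L) (C : Co L 2) (a : Fin 2 → ℂ) (m : Fin 2 → ℤ), GP e ψ P C a m →
  wt ε e ψ P = 1 / (lin ε (a 0) (m 0) * lin ε (a 1) (m 1))

/-- A divisorial valuation is the order of an iterated quadratic transform. -/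
def SABV : Prop := AllL fun L _ _ => ∀ (Φ : Loc L → Co L 2 → Prop) (o : DV L) (C₀ : Co L 2)
  (i : Fin 2), Stab Φ → C₀.At o i → ∀ R C, Reg R C → Φ R C → Dm o.O R →
  ∃ R' C', Reg R' C' ∧ Φ R' C' ∧ R.O ≤ R'.O ∧ IsOrd R' o

/-- The points of a surface over `R` are iterated quadratic transforms. -/
def STWI : Prop := AllL fun L _ _ => ∀ (Φ : Loc L → Co L 2 → Prop) (X : Set (Loc L)), Stab Φ →
  ∀ R C, Reg R C → Φ R C → Tw X R → ∀ S ∈ Fib X R, ∃ C', Reg S C' ∧ Φ S C'

/-- A set of points with a coordinate that misses finitely many values. -/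
def SLIN : Prop := AllL fun L _ _ => ∀ χ : H36.Chi, IsEu χ → ChiOK χ L →
  ∀ (W : Set (Loc L)) (y : L) (T : Finset ℂ), ConP W → (∀ P ∈ W, y ∈ P.O) →
  Set.BijOn (fun P : Loc L => P.ev y) W (T : Set ℂ)ᶜ → chiP χ W = 1 - T.card

/-- The exceptional curve minus finitely many points. -/
def SEXL : Prop := AllL fun L _ _ => ConOK L → ∀ (R : Loc L) (C : Co L 2) (T : Finset ℂ),
  (∃ B : Subalgebra ℂ L, B.FG ∧ LocOf B R) → ConP {S | ∃ c ∉ T, IsQ R C c S}

/-- The type of a curve of exponent zero, in adapted coordinates. -/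
def STY0 : Prop := AllL fun L _ _ => ∀ (k : Type) [Field k] [Algebra ℂ k] (P : Pl L k)
  (C : Co L 2) (e : Dv L) (v v' : VF L) (b μ : ℂ) (e₁ : Dv k) (v₁ : VF k), C.At P.o 0 →
  Rat (P.π (C.z 1)) → Exp e P.o 0 → e.δ (C.th 1) - algebraMap ℂ L μ ∈ P.o.F 1 → b ≠ 0 →
  e.δ v = algebraMap ℂ L b → v - v' ∈ e.Ex → Inv v' C ![0, μ] → P.RsD e e₁ → P.Res e v v₁ →
  Typ e₁ v₁ b

/-- The type of a curve of exponent zero over a point. -/
def STYP : Prop := AllL fun L _ _ => ∀ (k : Type) [Field k] [Algebra ℂ k] (P : Pl L k)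
  (C₀ : Co L 2) (i : Fin 2) (e : Dv L) (v v' : VF L) (b : ℂ) (e₁ : Dv k) (v₁ : VF k)
  (R : Loc L) (C : Co L 2) (a : Fin 2 → ℂ), C₀.At P.o i → Exp e P.o 0 → b ≠ 0 →
  e.δ v = algebraMap ℂ L b → v - v' ∈ e.Ex → Reg R C → C.Ad R.O e a → Inv v' C a →
  Dm P.o.O R → P.RsD e e₁ → P.Res e v v₁ → Typ e₁ v₁ b

/-- The logarithmic derivative of a monomial along an exceptional curve of exponent zero. -/
def SEXP : Prop := AllL fun L _ _ => ∀ (k : Type) [Field k] [Algebra ℂ k] (P : Pl L k)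
  (C₀ : Co L 2) (i : Fin 2) (e : Dv L) (v : VF L) (b : ℂ) (e₁ : Dv k) (ψ : L) (R : Loc L)
  (C : Co L 2) (a : Fin 2 → ℂ) (m : Fin 2 → ℤ), C₀.At P.o i → Exp e P.o 0 →
  e.δ v = algebraMap ℂ L b → GP e ψ R C a m → Pol e v R C → Dm P.o.O R → P.RsD e e₁ →
  ∃ u ∈ e.Ex, v - u ∈ LV P.o 0 ∧ Lau e₁ (P.π ((v - u) ψ / ψ))

/-! ### The steps -/

def OfORD : Prop := SQEX → SQRG → SCDV → SLEAD → SORD ∧ SEXC
def OfTRI : Prop := SLEAD → STRI
def OfRAT : Prop := SQEX → SLEAD → SEXC → SRAT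
def OfQAD : Prop := SQRG → SQAD
def OfABH : Prop := SLEAD → SORD → SNRM → SUU → SGEN → SABH
def OfWT : Prop := SCDV → SONE → SWT
def OfABV : Prop := SQEX → SQRG → SORD → SEXC → STRI → SABV
def OfTYP : Prop := SQEX → SQAD → SEXC → SRAT → SABV → STY0 → STYP
def OfEXP : Prop := SQEX → SQAD → SEXC → SRAT → SABV → SEXP

end

end Pool.Agent.MP_ee8c61_ag.M3BQ
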