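import Pool.Agent.MP_ee8c61_ag.M3BQ.Q

/-! The order of a regular point dominates no other regular point over it. -/

namespace Pool.Agent.MP_ee8c61_ag.M3BQ

open M3 M3RESID
open Pool.Agent.MP_96693b_ag.RS

variable {L : Type} [Field L] [Algebra ℂ L] {R S : Loc L} {n : ℕ} {κ κ' : Chart L n}

theorem gen_down (h : IsCrd R κ) (h' : IsCrd S κ') (e : κ'.x = κ.x) (hle : R.O ≤ S.O) (k : ℕ)
    {f : L} (hf : f ∈ R.O) (hS : f ∈ S.m ^ k) : f ∈ R.m ^ k := by
  induction k with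
  | zero => rw [pow_zero]; exact Loc.mem_one.2 hf
  | succ k ih =>
    obtain ⟨Q, hQ, h1⟩ := h.LChart_leading k (ih (Loc.pow_anti Loc.m_le_one k.le_succ hS))
    have h2 := sub_mem hS (Loc.m_pow_lift hle (fun _ hg => Loc.ev_eq_of_le hle hg) h1)
    rw [sub_sub_cancel, ← e] at h2
    have h3 : Q = 0 := MvPolynomial.ext _ _ fun α => by
      by_cases hα : α.degree = k
      · exact h'.coeff_eq_zero h2 α (hα ▸ Nat.lt_succ_self _)
      · exact hQ.coeff_eq_zero hα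
    rwa [h3, map_zero, sub_zero] at h1

theorem gen_eq (h : IsCrd R κ) (h' : IsCrd S κ') (e : κ'.x = κ.x) (hle : R.O ≤ S.O)
    (hf : ∀ g : L, ∃ q ∈ R.O, q ≠ 0 ∧ g * q ∈ R.O) : R = S := by
  refine Loc.ext' (le_antisymm hle fun g hg => ?_)
  obtain ⟨q, h1, h2, h3⟩ := hf g
  have h4 : g * q ∈ R.span {q} :=
    Loc.krull (Loc.span_le_one fun y hy => hy ▸ h1) fun k => by
      obtain ⟨P, hP⟩ := h'.taylor hg k
      have h5 := h.LChart_aeval_mem P
      have h6 := Loc.mul_mem_right (hle h1) hP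
      rw [e, sub_mul] at h6
      have := Submodule.add_mem_sup ((Loc.mem_span_singleton (s := q)).2 ⟨_, h5, rfl⟩)
        (gen_down h h' e hle k (sub_mem h3 (mul_mem h5 h1)) h6)
      rwa [add_sub_cancel] at this
  obtain ⟨a, ha, h5⟩ := Loc.mem_span_singleton.1 h4
  rwa [mul_right_cancel₀ h2 h5]

theorem gen_one {o : DV L} (h : Dm o.O S) {g : L} (hg : g ∈ S.m) : g ∈ o.F 1 := by
  obtain ⟨h1, h2⟩ := h g hg.1
  by_contra h3
  rw [DV.mem_F, not_or] at h3
  exact h2 hg.2 ⟨h3.1, h1, Or.inr (by rw [o.inv]; omega)⟩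

theorem gen_two {o : DV L} (h : Dm o.O S) {g : L} (hg : g ∈ S.m ^ 2) : g ∈ o.F 2 := by
  rw [pow_two] at hg
  exact Submodule.mul_induction_on hg (fun _ ha _ hb => o.F_mul (gen_one h ha) (gen_one h hb))
    fun _ _ => add_mem

theorem sgen : SGEN := by
  intro L _ _ R S C C' o hR hS hle ho hd
  obtain ⟨κ, h1, h2⟩ := hS.crd.exists_chart (ch C).x
    (fun i => ⟨hle (hR.crd.x_mem i),
      (Loc.ev_eq_of_le hle (hR.crd.x_mem i)).trans (hR.crd.x_mem_m i).2⟩)
    fun c hc => hR.crd.indep c ((ho _ (sum_mem fun i _ => R.O.smul_mem (hR.crd.x_mem i) _) 2).1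
      (gen_two hd hc))
  exact gen_eq hR.crd h1 h2 hle hR.frac

end Pool.Agent.MP_ee8c61_ag.M3BQ
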