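import Pool.Agent.MP_ee8c61_ag.M3BQ.Q

/-!
Existence of quadratic transforms.
-/

namespace Pool.Agent.MP_ee8c61_ag.M3BQ

open M3 M3RESID
open Pool.Agent.MP_96693b_ag.RS

noncomputable section

variable {L : Type} [Field L] [Algebra ℂ L]

/-- Evaluation at the point. -/
def qex_ev (R : Loc L) : R.O →ₐ[ℂ] ℂ where
  toFun g := R.ev g
  map_one' := Loc.ev_one
  map_mul' g g' := R.ev_mul _ g.2 _ g'.2
  map_zero' := Loc.ev_zero
  map_add' g g' := R.ev_add _ g.2 _ g'.2
  commutes' r := R.ev_alg r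

theorem qex_rel {R : Loc L} {C : Co L 2} (h : IsCrd R (ch C)) (c : ℂ) (n : ℕ) (r : ℕ → R.O)
    (h0 : ∑ i ∈ Finset.range (n + 1), (r i : L) * sg C ^ i = 0) :
    ∑ i ∈ Finset.range (n + 1), R.ev (r i) * c ^ i = 0 := by
  let P : MvPolynomial (Fin 2) ℂ := ∑ i ∈ Finset.range (n + 1),
    MvPolynomial.C (R.ev (r i)) * (MvPolynomial.X 1 ^ i * MvPolynomial.X 0 ^ (n - i))
  have hz : ∀ i, C.z i ∈ R.m := fun i => h.span.le (Loc.subset_span ⟨i, rfl⟩)
  have h1 : P.IsHomogeneous n := MvPolynomial.IsHomogeneous.sum _ _ _ fun i hi => by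
    have h2 := (MvPolynomial.isHomogeneous_C (Fin 2) (R.ev (r i))).mul
      ((MvPolynomial.isHomogeneous_X_pow (R := ℂ) (1 : Fin 2) i).mul
        (MvPolynomial.isHomogeneous_X_pow (R := ℂ) (0 : Fin 2) (n - i)))
    rwa [zero_add, Nat.add_sub_cancel' (Nat.lt_succ_iff.1 (Finset.mem_range.1 hi))] at h2
  have h2 : MvPolynomial.aeval (ch C).x P = -∑ i ∈ Finset.range (n + 1),
      (r i - algebraMap ℂ L (R.ev (r i))) * (C.z 1 ^ i * C.z 0 ^ (n - i)) := by
    have h3 : ∑ i ∈ Finset.range (n + 1), (r i : L) * (C.z 1 ^ i * C.z 0 ^ (n - i)) =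
        (∑ i ∈ Finset.range (n + 1), (r i : L) * sg C ^ i) * C.z 0 ^ n := by
      rw [Finset.sum_mul]
      refine Finset.sum_congr rfl fun i hi => ?_
      rw [pow_sub₀ _ (C.ne 0) (Nat.lt_succ_iff.1 (Finset.mem_range.1 hi)), sg, div_pow]
      ring
    simp only [sub_mul, Finset.sum_sub_distrib, h3, h0, zero_mul, zero_sub, neg_neg, P, map_sum,
      map_mul, map_pow, MvPolynomial.aeval_C, MvPolynomial.aeval_X]
    rfl
  have h3 : MvPolynomial.aeval (ch C).x P ∈ R.m ^ (n + 1) := by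
    rw [h2]
    refine neg_mem (sum_mem fun i hi => ?_)
    have h4 := Loc.mul_mem_pow_add (Loc.pow_mem_pow (Loc.sub_ev_mem (r i).2) 1)
      (Loc.mul_mem_pow_add (Loc.pow_mem_pow (hz 1) i) (Loc.pow_mem_pow (hz 0) (n - i)))
    rwa [pow_one, Nat.add_sub_cancel' (Nat.lt_succ_iff.1 (Finset.mem_range.1 hi)),
      add_comm 1 n] at h4
  have h4 : P = 0 := by
    ext α
    by_cases e : α.degree = n
    · exact h.coeff_eq_zero h3 α (e ▸ Nat.lt_succ_self _)
    · exact h1.coeff_eq_zero e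
  have h5 := congrArg (MvPolynomial.eval ![1, c]) h4
  simpa [P] using h5

theorem qex_hom {R : Loc L} {C : Co L 2} (h : IsCrd R (ch C)) (c : ℂ) :
    ∃ φ : (R.O ⊔ Algebra.adjoin ℂ {sg C} : Subalgebra ℂ L) →ₐ[ℂ] ℂ,
      (∀ g, g.1 ∈ R.O → φ g = R.ev g.1) ∧ ∀ g, g.1 = sg C → φ g = c := by
  let ψ : Polynomial R.O →ₐ[ℂ] L :=
    Polynomial.eval₂AlgHom R.O.val (sg C) fun _ => Commute.all _ _
  let χ : Polynomial R.O →ₐ[ℂ] ℂ :=
    Polynomial.eval₂AlgHom (qex_ev R) c fun _ => Commute.all _ _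
  have a1 : ∀ g : R.O, ψ (Polynomial.C g) = g := fun g => Polynomial.eval₂_C _ _
  have a2 : ψ Polynomial.X = sg C := Polynomial.eval₂_X _ _
  have e : R.O ⊔ Algebra.adjoin ℂ {sg C} = ψ.range := by
    refine le_antisymm (sup_le (fun g hg => ⟨_, a1 ⟨g, hg⟩⟩)
      (Algebra.adjoin_le (Set.singleton_subset_iff.2 ⟨_, a2⟩))) ?_
    rintro _ ⟨p, rfl⟩
    change ψ p ∈ _
    induction p using Polynomial.induction_on with
    | C a => rw [a1]; exact Algebra.mem_sup_left a.2
    | add p q hp hq => rw [map_add]; exact add_mem hp hq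
    | monomial k a hk =>
      rw [pow_succ, ← mul_assoc, map_mul, a2]
      exact mul_mem hk (Algebra.mem_sup_right (Algebra.subset_adjoin rfl))
  rw [e]
  have k : RingHom.ker ψ.rangeRestrict.toRingHom ≤ RingHom.ker χ.toRingHom := fun p hp => by
    have h1 : Polynomial.eval₂ R.O.val.toRingHom (sg C) p = 0 := congrArg Subtype.val hp
    change Polynomial.eval₂ (qex_ev R).toRingHom c p = 0
    rw [Polynomial.eval₂_eq_sum_range] at h1 ⊢
    exact qex_rel h c _ _ h1
  refine ⟨AlgHom.liftOfSurjective _ ψ.rangeRestrict_surjective χ k, fun g hg => ?_, fun g hg => ?_⟩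
  · rw [show g = ψ.rangeRestrict (Polynomial.C ⟨g, hg⟩) from Subtype.ext (a1 ⟨g, hg⟩).symm,
      AlgHom.liftOfSurjective_apply]
    exact (Polynomial.eval₂_C _ _).trans (congrArg R.ev (a1 ⟨g, hg⟩).symm)
  · rw [show g = ψ.rangeRestrict Polynomial.X from Subtype.ext (hg.trans a2.symm),
      AlgHom.liftOfSurjective_apply]
    exact Polynomial.eval₂_X _ _

theorem qex_noeth (B : Subalgebra ℂ L) [IsNoetherianRing B] (b : B →ₐ[ℂ] ℂ) :
    IsNoetherianRing (RAff.locO B b) := by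
  let _ : Algebra B (RAff.locO B b) :=
    (Subalgebra.inclusion (RAff.le_locO B b)).toRingHom.toAlgebra
  let N : Submonoid B :=
    { carrier := {q | b q ≠ 0}
      mul_mem' := fun {x y} hx hy => by simpa using ⟨hx, hy⟩
      one_mem' := by simp }
  have hne : ∀ q : B, b q ≠ 0 → (q : L) ≠ 0 := fun q hq h0 => hq (by
    have : q = 0 := Subtype.ext h0
    simp [this])
  have : IsLocalization N (RAff.locO B b) :=
    { map_units := fun ⟨q, hq⟩ => by
        refine IsUnit.of_mul_eq_one ⟨(q : L)⁻¹, 1, q, hq, by simp [hne q hq]⟩ (Subtype.ext ?_)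
        exact mul_inv_cancel₀ (hne q hq)
      surj := fun ⟨x, p, q, hq, h⟩ => ⟨(p, ⟨q, hq⟩), Subtype.ext h⟩
      exists_of_eq := fun {x y} h => ⟨1, by
        have : (x : L) = y := congrArg (fun z : RAff.locO B b => (z : L)) h
        rw [Subtype.ext this]⟩ }
  exact IsLocalization.isNoetherianRing N _ inferInstance

open RAff in
/-- The local ring of a point of a Noetherian algebra. -/
def qex_at (B : Subalgebra ℂ L) [IsNoetherianRing B] (b : B →ₐ[ℂ] ℂ) : Loc L where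
  O := locO B b
  ev := locEv B b
  ev_add := fun f ⟨p, q, hq, h⟩ g ⟨p', q', hq', h'⟩ => by
    rw [locEv_eq B b hq h, locEv_eq B b hq' h', locEv_eq B b (p := p * q' + p' * q) (q := q * q')
      (by simp [hq, hq']) (by push_cast; rw [← h, ← h']; ring)]
    simp only [map_add, map_mul]
    field_simp
  ev_mul := fun f ⟨p, q, hq, h⟩ g ⟨p', q', hq', h'⟩ => by
    rw [locEv_eq B b hq h, locEv_eq B b hq' h', locEv_eq B b (p := p * p') (q := q * q')
      (by simp [hq, hq']) (by push_cast; rw [← h, ← h']; ring)]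
    simp only [map_mul]
    field_simp
  ev_alg := fun r => by
    rw [locEv_eq B b (p := algebraMap ℂ B r) (q := 1) (by simp) (by simp)]
    simp
  ev_out := fun f hf => dif_neg fun ⟨pq, h1, h2⟩ => hf ⟨pq.1, pq.2, h1, h2⟩
  inv_mem := fun f ⟨p, q, hq, h⟩ hf => by
    rw [locEv_eq B b hq h] at hf
    have hp : b p ≠ 0 := fun h0 => hf (by simp [h0])
    have hf0 : f ≠ 0 := by
      rintro rfl
      have : p = 0 := Subtype.ext (by simpa using h.symm)
      simp [this] at hp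
    exact ⟨q, p, hp, by rw [← h]; field_simp⟩
  noeth := qex_noeth B b

theorem qex_sup (R : Loc L) (y : L) :
    IsNoetherianRing (R.O ⊔ Algebra.adjoin ℂ {y} : Subalgebra ℂ L) := by
  have := R.noeth
  let ψ : Polynomial R.O →ₐ[ℂ] L := Polynomial.eval₂AlgHom R.O.val y fun _ => Commute.all _ _
  have a1 : ∀ g : R.O, ψ (Polynomial.C g) = g := fun g => Polynomial.eval₂_C _ _
  have a2 : ψ Polynomial.X = y := Polynomial.eval₂_X _ _
  have e : R.O ⊔ Algebra.adjoin ℂ {y} = ψ.range := by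
    refine le_antisymm (sup_le (fun g hg => ⟨_, a1 ⟨g, hg⟩⟩)
      (Algebra.adjoin_le (Set.singleton_subset_iff.2 ⟨_, a2⟩))) ?_
    rintro _ ⟨p, rfl⟩
    change ψ p ∈ _
    induction p using Polynomial.induction_on with
    | C a => rw [a1]; exact Algebra.mem_sup_left a.2
    | add p q hp hq => rw [map_add]; exact add_mem hp hq
    | monomial k a hk =>
      rw [pow_succ, ← mul_assoc, map_mul, a2]
      exact mul_mem hk (Algebra.mem_sup_right (Algebra.subset_adjoin rfl))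
  rw [e]
  exact isNoetherianRing_of_surjective _ _ ψ.rangeRestrict.toRingHom ψ.rangeRestrict_surjective

theorem sqex : SQEX := by
  intro L _ _ R C c h
  obtain ⟨φ, -, h2⟩ := qex_hom h.crd c
  have := qex_sup R (sg C)
  have e : ∀ g, (qex_at _ φ).ev (g : (R.O ⊔ Algebra.adjoin ℂ {sg C} : Subalgebra ℂ L)) = φ g :=
    fun g => by
      show RAff.locEv _ φ g = φ g
      rw [RAff.locEv_eq _ φ (p := g) (q := 1) (by simp) (by simp)]
      simp
  refine ⟨qex_at _ φ, ⟨RAff.le_locO _ φ, fun f ⟨p, q, hq, h⟩ => ⟨p, p.2, q, q.2, ?_, h⟩⟩,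
    (e ⟨_, Algebra.mem_sup_right (Algebra.subset_adjoin rfl)⟩).trans (h2 _ rfl)⟩
  rwa [e]

end

end Pool.Agent.MP_ee8c61_ag.M3BQ
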